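import Pool.Agent.R988.Loc2

/-! Exponentials of negative powers of a small number dominate all powers. -/

set_option autoImplicit false

open scoped BigOperators Topology
open MeasureTheory Filter Set

namespace Pool.Agent.H189.U

/-- `exp (σ^{-q})` is larger than every power of `1 / σ` -/
theorem exp_dom (C p q : ℝ) (hq : 0 < q) :
    ∀ᶠ t : ℝ in 𝓝[>] 0, C * t ^ (-p) ≤ Real.exp (t ^ (-q)) := by
  have h1 : Tendsto (fun t : ℝ => t ^ (-q)) (𝓝[>] 0) atTop :=
    tendsto_rpow_neg_nhdsGT_zero (by linarith)
  have h2 : ∀ᶠ x : ℝ in atTop, C * x ^ (p / q) ≤ Real.exp x := by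
    have h3 := (isLittleO_rpow_exp_atTop (p / q)).const_mul_left C
    have h4 := h3.bound one_pos
    filter_upwards [h4] with x hx
    rw [one_mul, Real.norm_of_nonneg (Real.exp_pos x).le] at hx
    exact (le_abs_self _).trans hx
  have h5 := h1.eventually h2
  filter_upwards [h5, self_mem_nhdsWithin] with t ht ht0
  have ht0' : (0 : ℝ) < t := ht0
  have e1 : (t ^ (-q)) ^ (p / q) = t ^ (-p) := by
    rw [← Real.rpow_mul ht0'.le]
    congr 1
    field_simp
  rw [e1] at ht
  exact ht

end Pool.Agent.H189.U
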