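import Pool.Agent.H189.U.Res

/-! Existence of the resolvent for potentials that need not be bounded; comparison of resolvents. -/

set_option autoImplicit false
set_option linter.unusedSectionVars false
set_option linter.unusedVariables false

open scoped BigOperators ComplexConjugate Topology
open Set Filter

namespace Pool.Agent.H189.U

open Pool.Agent.W788.LD.Spec (S symm summ_mul summ_shift shiftsum)
open Pool.Agent.H4R2.LO (Zd)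
open Pool.Agent.TH794.QE (Rs rs_exists)

variable {d : ℕ}

/-- the resolvent exists for every real potential -/
theorem rsU_exists (V : Zd d → ℝ) (a : Zd d) (e η : ℝ) (hη : 0 < η) :
    ∃ u : Zd d → ℂ, Rs d V a e η u := by
  obtain ⟨Vn, hVn⟩ : ∃ Vn : ℕ → Zd d → ℝ, Vn = fun (n : ℕ) x =>
    max (-(n : ℝ)) (min (n : ℝ) (V x)) := ⟨_, rfl⟩
  have hb : ∀ n x, |Vn n x| ≤ n := by
    intro n x
    rw [hVn, abs_le]
    have hn : (0 : ℝ) ≤ n := Nat.cast_nonneg n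
    exact ⟨le_max_left _ _, max_le (by linarith) (min_le_left _ _)⟩
  choose un hun using fun n => rs_exists (Vn n) n (hb n) a e η hη
  have hbd : ∀ n x, ‖un n x‖ ≤ η⁻¹ := by
    intro n x
    have h1 := rsU_norm (hun n) hη
    have h2 := (hun n).sq.le_tsum x fun y _ => by positivity
    exact (pow_le_pow_iff_left₀ (norm_nonneg _) (inv_pos.2 hη).le two_ne_zero).1 (h2.trans h1)
  have hlim : ∀ x, ∃ y : ℂ, Tendsto (fun n => un n x) (hyperfilter ℕ : Ultrafilter ℕ) (𝓝 y) := by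
    intro x
    have hc : IsCompact (Metric.closedBall (0 : ℂ) η⁻¹) := isCompact_closedBall _ _
    obtain ⟨y, -, hy⟩ := hc.ultrafilter_le_nhds ((hyperfilter ℕ).map fun n => un n x) (by
      rw [le_principal_iff, Ultrafilter.coe_map, mem_map]
      refine Filter.univ_mem' fun n => ?_
      rw [mem_preimage, Metric.mem_closedBall, dist_zero_right]
      exact hbd n x)
    exact ⟨y, hy⟩
  choose u hu using hlim
  refine ⟨u, ?_, fun x => ?_⟩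
  · refine summable_of_sum_le (c := (η⁻¹) ^ 2) (fun x => by positivity) fun s => ?_
    have h1 : Tendsto (fun n => ∑ x ∈ s, ‖un n x‖ ^ 2) (hyperfilter ℕ : Ultrafilter ℕ)
        (𝓝 (∑ x ∈ s, ‖u x‖ ^ 2)) := tendsto_finsetSum s fun x _ => (hu x).norm.pow 2
    refine le_of_tendsto h1 (Eventually.of_forall fun n => ?_)
    exact ((hun n).sq.sum_le_tsum s fun x _ => by positivity).trans (rsU_norm (hun n) hη)
  · have h1 : Tendsto (fun n => -S (un n) x + (V x : ℂ) * un n x -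
        ((e : ℂ) + (η : ℂ) * Complex.I) * un n x) (hyperfilter ℕ : Ultrafilter ℕ)
        (𝓝 (-S u x + (V x : ℂ) * u x - ((e : ℂ) + (η : ℂ) * Complex.I) * u x)) := by
      refine Tendsto.sub (Tendsto.add (Tendsto.neg ?_) ((hu x).const_mul _)) ((hu x).const_mul _)
      unfold S
      exact tendsto_finsetSum _ fun i _ => (hu _).add (hu _)
    have h2 : ∀ᶠ n : ℕ in (hyperfilter ℕ : Ultrafilter ℕ), -S (un n) x + (V x : ℂ) * un n x -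
        ((e : ℂ) + (η : ℂ) * Complex.I) * un n x = if x = a then 1 else 0 := by
      have h3 : ∀ᶠ n : ℕ in atTop, |V x| ≤ n := by
        obtain ⟨N, hN⟩ := exists_nat_ge |V x|
        filter_upwards [eventually_ge_atTop N] with n hn
        have : (N : ℝ) ≤ n := by exact_mod_cast hn
        linarith
      filter_upwards [Nat.hyperfilter_le_atTop h3] with n hn
      have h4 := (hun n).eq x
      have h5 : Vn n x = V x := by
        rw [hVn]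
        have := abs_le.1 hn
        simp only
        rw [min_eq_right this.2, max_eq_right this.1]
      rw [h5] at h4
      exact h4
    exact tendsto_nhds_unique (h1.congr' (h2.mono fun n hn => hn)) tendsto_const_nhds

/-- comparison of two resolvents for potentials that agree near the site -/
theorem cmpU (hd : 1 ≤ d) {V V' : Zd d → ℝ} {a : Zd d} {e η : ℝ} {u u' : Zd d → ℂ}
    (h : Rs d V a e η u) (h' : Rs d V' a e η u') (hη : 0 < η) (hη1 : η ≤ 1) (R : ℝ) (hR : 1 ≤ R)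
    (hV : ∀ x, ‖x - a‖ ≤ 2 * R → V x = V' x) :
    (Summable fun x => |‖u x‖ ^ 2 - ‖u' x‖ ^ 2|) ∧
      ∑' x, |‖u x‖ ^ 2 - ‖u' x‖ ^ 2| ≤ 18 * d ^ 2 * (η⁻¹) ^ 4 / R := by
  have hR0 : 0 < R := by linarith
  have hd1 : (1 : ℝ) ≤ d := by exact_mod_cast hd
  have n1 := rsU_norm h hη
  have n2 := rsU_norm h' hη
  obtain ⟨w1, w2⟩ := rsU_wt h hη
  obtain ⟨w1', w2'⟩ := rsU_wt h' hη
  obtain ⟨v, hv⟩ : ∃ v : Zd d → ℂ, v = fun x => u x - u' x := ⟨_, rfl⟩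
  have hvb : ∀ x, ‖v x‖ ^ 2 ≤ 2 * ‖u x‖ ^ 2 + 2 * ‖u' x‖ ^ 2 := by
    intro x
    rw [hv]
    have h1 := norm_sub_le (u x) (u' x)
    have h2 := pow_le_pow_left₀ (norm_nonneg _) h1 2
    nlinarith [sq_nonneg (‖u x‖ - ‖u' x‖)]
  have hbs : Summable fun x => 2 * ‖u x‖ ^ 2 + 2 * ‖u' x‖ ^ 2 :=
    (h.sq.mul_left 2).add (h'.sq.mul_left 2)
  have hvs : Summable fun x => ‖v x‖ ^ 2 :=
    Summable.of_nonneg_of_le (fun x => by positivity) hvb hbs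
  have hv4 : ∑' x, ‖v x‖ ^ 2 ≤ 4 * (η⁻¹) ^ 2 := by
    refine (hvs.tsum_le_tsum hvb hbs).trans ?_
    rw [(h.sq.mul_left 2).tsum_add (h'.sq.mul_left 2), tsum_mul_left, tsum_mul_left]
    linarith
  have heq : ∀ x, -S v x + (V x : ℂ) * v x - ((e : ℂ) + (η : ℂ) * Complex.I) * v x =
      ((V' x : ℂ) - V x) * u' x := by
    intro x
    have e1 := h.eq x
    have e2 := h'.eq x
    have e3 : S v x = S u x - S u' x := by
      rw [hv]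
      unfold S
      rw [← Finset.sum_sub_distrib]
      exact Finset.sum_congr rfl fun i _ => by ring
    rw [e3, hv]
    linear_combination e1 - e2
  obtain ⟨φ, hφ⟩ : ∃ φ : Zd d → ℝ, φ = co a R := ⟨_, rfl⟩
  obtain ⟨c1, c2⟩ := cm_bound (𝕜 := ℂ) φ (1 / R) (by positivity) (by
    rw [hφ]
    exact co_lip a R hR0) v hvs
  have hφn : ∀ x, ‖((φ x : ℝ) : ℂ) * v x‖ ^ 2 = φ x ^ 2 * ‖v x‖ ^ 2 := fun x => by
    rw [norm_mul, mul_pow, Complex.norm_real, Real.norm_eq_abs, sq_abs]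
  have hφ1 : ∀ x, φ x ^ 2 ≤ 1 := fun x => by
    rw [hφ]
    exact pow_le_one₀ (co_nonneg a R x) (co_le_one a R x)
  have hφs : Summable fun x => φ x ^ 2 * ‖v x‖ ^ 2 :=
    Summable.of_nonneg_of_le (fun x => by positivity) (fun x =>
      mul_le_of_le_one_left (by positivity) (hφ1 x)) hvs
  have hen := energy V e η hη (fun x => ((φ x : ℝ) : ℂ) * v x) (fun x => -cm φ v x) (by
      simp only [hφn]
      exact hφs) (by
      simp only [norm_neg]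
      exact c1) (fun x => by
      rw [mul_eq V _ φ v _ heq x]
      rcases le_or_gt ‖x - a‖ (2 * R) with hx | hx
      · rw [hV x hx]
        ring
      · have : φ x = 0 := by
          rw [hφ]
          exact co_zero a R hR0 x hx.le
        rw [this]
        simp)
  simp only [hφn, norm_neg] at hen
  have hφv : ∑' x, φ x ^ 2 * ‖v x‖ ^ 2 ≤ 16 * d ^ 2 * (η⁻¹) ^ 4 / R ^ 2 := by
    have h1 : η ^ 2 * ∑' x, φ x ^ 2 * ‖v x‖ ^ 2 ≤ (2 * d * (1 / R)) ^ 2 * (4 * (η⁻¹) ^ 2) :=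
      hen.trans (c2.trans (by gcongr))
    have h4 := mul_le_mul_of_nonneg_left h1 (by positivity : 0 ≤ (η⁻¹) ^ 2)
    have e1 : (η⁻¹) ^ 2 * (η ^ 2 * ∑' x, φ x ^ 2 * ‖v x‖ ^ 2) =
        ∑' x, φ x ^ 2 * ‖v x‖ ^ 2 := by
      rw [← mul_assoc, inv_pow, inv_mul_cancel₀ (by positivity), one_mul]
    rw [e1] at h4
    refine h4.trans (le_of_eq ?_)
    field_simp
    ring
  obtain ⟨F, hF⟩ : ∃ F : Zd d → ℝ, F = fun x => (R / 2 * (φ x ^ 2 * ‖v x‖ ^ 2) +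
    1 / R * (‖u x‖ ^ 2 + ‖u' x‖ ^ 2)) + 1 / R ^ 2 * (‖x - a‖ ^ 2 * ‖u x‖ ^ 2 +
      ‖x - a‖ ^ 2 * ‖u' x‖ ^ 2) := ⟨_, rfl⟩
  have hq : ∀ x, |‖u x‖ ^ 2 - ‖u' x‖ ^ 2| ≤ F x := by
    intro x
    rw [hF]
    simp only
    have p1 : 0 ≤ R / 2 * (φ x ^ 2 * ‖v x‖ ^ 2) := by positivity
    have p2 : 0 ≤ 1 / R * (‖u x‖ ^ 2 + ‖u' x‖ ^ 2) := by positivity
    have p3 : 0 ≤ 1 / R ^ 2 * (‖x - a‖ ^ 2 * ‖u x‖ ^ 2 + ‖x - a‖ ^ 2 * ‖u' x‖ ^ 2) := by positivity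
    rcases le_or_gt ‖x - a‖ R with hx | hx
    · have h1 : φ x = 1 := by
        rw [hφ]
        exact co_one a R hR0 x hx
      have h2 : |‖u x‖ ^ 2 - ‖u' x‖ ^ 2| ≤ ‖v x‖ * (‖u x‖ + ‖u' x‖) := by
        have e1 : ‖u x‖ ^ 2 - ‖u' x‖ ^ 2 = (‖u x‖ - ‖u' x‖) * (‖u x‖ + ‖u' x‖) := by ring
        rw [e1, abs_mul, abs_of_nonneg (by positivity : 0 ≤ ‖u x‖ + ‖u' x‖)]
        gcongr
        rw [hv]
        exact abs_norm_sub_norm_le _ _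
      have h3 : ‖v x‖ * (‖u x‖ + ‖u' x‖) ≤ R / 2 * ‖v x‖ ^ 2 + 1 / R * (‖u x‖ ^ 2 + ‖u' x‖ ^ 2) := by
        have e2 : R / 2 * ‖v x‖ ^ 2 + 1 / (2 * R) * (‖u x‖ + ‖u' x‖) ^ 2 -
            ‖v x‖ * (‖u x‖ + ‖u' x‖) = 1 / (2 * R) * (R * ‖v x‖ - (‖u x‖ + ‖u' x‖)) ^ 2 := by
          field_simp
          ring
        have e3 : 0 ≤ 1 / (2 * R) * (R * ‖v x‖ - (‖u x‖ + ‖u' x‖)) ^ 2 := by positivity
        have e4 : 1 / (2 * R) * (‖u x‖ + ‖u' x‖) ^ 2 ≤ 1 / R * (‖u x‖ ^ 2 + ‖u' x‖ ^ 2) := by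
          have e5 : (‖u x‖ + ‖u' x‖) ^ 2 ≤ 2 * (‖u x‖ ^ 2 + ‖u' x‖ ^ 2) := by
            nlinarith [sq_nonneg (‖u x‖ - ‖u' x‖)]
          calc 1 / (2 * R) * (‖u x‖ + ‖u' x‖) ^ 2 ≤
              1 / (2 * R) * (2 * (‖u x‖ ^ 2 + ‖u' x‖ ^ 2)) := by gcongr
            _ = _ := by field_simp
        linarith
      rw [h1, one_pow, one_mul] at p1 ⊢
      linarith
    · have h1 : |‖u x‖ ^ 2 - ‖u' x‖ ^ 2| ≤ ‖u x‖ ^ 2 + ‖u' x‖ ^ 2 := by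
        rw [abs_le]
        constructor <;> nlinarith [sq_nonneg ‖u x‖, sq_nonneg ‖u' x‖]
      have h2 : ‖u x‖ ^ 2 + ‖u' x‖ ^ 2 ≤
          1 / R ^ 2 * (‖x - a‖ ^ 2 * ‖u x‖ ^ 2 + ‖x - a‖ ^ 2 * ‖u' x‖ ^ 2) := by
        have h3 : R ^ 2 ≤ ‖x - a‖ ^ 2 := pow_le_pow_left₀ hR0.le hx.le 2
        have h4 : R ^ 2 * (‖u x‖ ^ 2 + ‖u' x‖ ^ 2) ≤ ‖x - a‖ ^ 2 * (‖u x‖ ^ 2 + ‖u' x‖ ^ 2) := by
          gcongr
        calc ‖u x‖ ^ 2 + ‖u' x‖ ^ 2 = 1 / R ^ 2 * (R ^ 2 * (‖u x‖ ^ 2 + ‖u' x‖ ^ 2)) := by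
              field_simp
          _ ≤ 1 / R ^ 2 * (‖x - a‖ ^ 2 * (‖u x‖ ^ 2 + ‖u' x‖ ^ 2)) := by gcongr
          _ = _ := by ring
      linarith
  have hFs1 : Summable fun x => R / 2 * (φ x ^ 2 * ‖v x‖ ^ 2) + 1 / R * (‖u x‖ ^ 2 + ‖u' x‖ ^ 2) :=
    (hφs.mul_left _).add ((h.sq.add h'.sq).mul_left _)
  have hFs2 : Summable fun x => 1 / R ^ 2 * (‖x - a‖ ^ 2 * ‖u x‖ ^ 2 + ‖x - a‖ ^ 2 * ‖u' x‖ ^ 2) :=
    (w1.add w1').mul_left _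
  have hFs : Summable F := by
    rw [hF]
    exact hFs1.add hFs2
  have hqs : Summable fun x => |‖u x‖ ^ 2 - ‖u' x‖ ^ 2| :=
    Summable.of_nonneg_of_le (fun x => abs_nonneg _) hq hFs
  refine ⟨hqs, (hqs.tsum_le_tsum hq hFs).trans ?_⟩
  rw [hF, hFs1.tsum_add hFs2, (hφs.mul_left _).tsum_add ((h.sq.add h'.sq).mul_left _),
    tsum_mul_left, tsum_mul_left, tsum_mul_left, h.sq.tsum_add h'.sq, w1.tsum_add w1']
  have hi1 : 1 ≤ η⁻¹ := (one_le_inv₀ hη).2 hη1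
  have hi0 : 0 < η⁻¹ := by linarith
  calc R / 2 * ∑' x, φ x ^ 2 * ‖v x‖ ^ 2 + 1 / R * (∑' x, ‖u x‖ ^ 2 + ∑' x, ‖u' x‖ ^ 2) +
      1 / R ^ 2 * (∑' x, ‖x - a‖ ^ 2 * ‖u x‖ ^ 2 + ∑' x, ‖x - a‖ ^ 2 * ‖u' x‖ ^ 2) ≤
      R / 2 * (16 * d ^ 2 * (η⁻¹) ^ 4 / R ^ 2) + 1 / R * ((η⁻¹) ^ 2 + (η⁻¹) ^ 2) +
      1 / R ^ 2 * (4 * d ^ 2 * (η⁻¹) ^ 4 + 4 * d ^ 2 * (η⁻¹) ^ 4) := by gcongr
    _ = 8 * d ^ 2 * (η⁻¹) ^ 4 / R + 2 * (η⁻¹) ^ 2 / R + 8 * d ^ 2 * (η⁻¹) ^ 4 / R ^ 2 := by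
        field_simp
        ring
    _ ≤ 8 * d ^ 2 * (η⁻¹) ^ 4 / R + 2 * (d ^ 2 * (η⁻¹) ^ 4) / R + 8 * d ^ 2 * (η⁻¹) ^ 4 / R := by
        have h1 : (η⁻¹) ^ 2 ≤ d ^ 2 * (η⁻¹) ^ 4 := by
          calc (η⁻¹) ^ 2 = 1 * (η⁻¹) ^ 2 := (one_mul _).symm
            _ ≤ d ^ 2 * (η⁻¹) ^ 4 := by
                have h2 : (1 : ℝ) ≤ d ^ 2 := one_le_pow₀ hd1
                have h3 : (η⁻¹) ^ 2 ≤ (η⁻¹) ^ 4 := pow_le_pow_right₀ hi1 (by norm_num)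
                gcongr
        have h2 : R ≤ R ^ 2 := by nlinarith
        gcongr
    _ = _ := by ring

end Pool.Agent.H189.U
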