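import Pool.Agent.W788.LD.Spec

/-! Cut-offs and commutators on the lattice; no bound on the potential is used. -/

set_option autoImplicit false
set_option linter.unusedSectionVars false
set_option linter.unusedVariables false

open scoped BigOperators ComplexConjugate
open Set

namespace Pool.Agent.H189.U

open Pool.Agent.W788.LD.Spec (S symm summ_mul summ_shift shiftsum)
open Pool.Agent.H4R2.LO (Zd)

variable {d : ℕ} {𝕜 : Type} [RCLike 𝕜]

/-- the commutator of the hopping operator with a multiplication operator -/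
noncomputable def cm (φ : Zd d → ℝ) (u : Zd d → 𝕜) (x : Zd d) : 𝕜 :=
  ∑ i : Fin d, (((φ (x + Pi.single i 1) - φ x : ℝ) : 𝕜) * u (x + Pi.single i 1) +
    ((φ (x - Pi.single i 1) - φ x : ℝ) : 𝕜) * u (x - Pi.single i 1))

theorem shift_sub (u : Zd d → ℝ) (e : Zd d) (hu : Summable u) :
    (Summable fun x => u (x - e)) ∧ ∑' x, u (x - e) = ∑' x, u x :=
  ⟨(Equiv.subRight e).summable_iff.2 hu, (Equiv.subRight e).tsum_eq u⟩

theorem shift_add (u : Zd d → ℝ) (e : Zd d) (hu : Summable u) :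
    (Summable fun x => u (x + e)) ∧ ∑' x, u (x + e) = ∑' x, u x :=
  ⟨(Equiv.addRight e).summable_iff.2 hu, (Equiv.addRight e).tsum_eq u⟩

/-- the sum over the neighbours of a summable function -/
theorem nb_sum (v : Zd d → ℝ) (hv : Summable v) :
    (Summable fun x : Zd d => ∑ i : Fin d, (v (x + Pi.single i 1) + v (x - Pi.single i 1))) ∧
    ∑' x : Zd d, ∑ i : Fin d, (v (x + Pi.single i 1) + v (x - Pi.single i 1)) =
      2 * d * ∑' x, v x := by
  have h1 : ∀ i : Fin d, Summable fun x : Zd d => v (x + Pi.single i 1) + v (x - Pi.single i 1) :=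
    fun i => (shift_add v _ hv).1.add (shift_sub v _ hv).1
  refine ⟨summable_sum fun i _ => h1 i, ?_⟩
  rw [Summable.tsum_finsetSum fun i _ => h1 i]
  have h2 : ∀ i : Fin d, ∑' x : Zd d, (v (x + Pi.single i 1) + v (x - Pi.single i 1)) =
      2 * ∑' x, v x := by
    intro i
    rw [(shift_add v _ hv).1.tsum_add (shift_sub v _ hv).1, (shift_add v _ hv).2,
      (shift_sub v _ hv).2]
    ring
  simp only [h2]
  rw [Finset.sum_const, Finset.card_univ, Fintype.card_fin, nsmul_eq_mul]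
  ring

theorem cm_bound (φ : Zd d → ℝ) (ε : ℝ) (hε : 0 ≤ ε)
    (hφ : ∀ (x : Zd d) (i : Fin d), |φ (x + Pi.single i 1) - φ x| ≤ ε)
    (u : Zd d → 𝕜) (hu : Summable fun x => ‖u x‖ ^ 2) :
    (Summable fun x => ‖cm φ u x‖ ^ 2) ∧
      ∑' x, ‖cm φ u x‖ ^ 2 ≤ (2 * d * ε) ^ 2 * ∑' x, ‖u x‖ ^ 2 := by
  have hφ' : ∀ (x : Zd d) (i : Fin d), |φ (x - Pi.single i 1) - φ x| ≤ ε := by
    intro x i
    have h1 := hφ (x - Pi.single i 1) i
    rw [sub_add_cancel, abs_sub_comm] at h1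
    exact h1
  have h1 : ∀ x, ‖cm φ u x‖ ^ 2 ≤ ε ^ 2 * (2 * d) * ∑ i : Fin d,
      (‖u (x + Pi.single i 1)‖ ^ 2 + ‖u (x - Pi.single i 1)‖ ^ 2) := by
    intro x
    have h2 : ‖cm φ u x‖ ≤ ε * ∑ i : Fin d, (‖u (x + Pi.single i 1)‖ + ‖u (x - Pi.single i 1)‖) := by
      unfold cm
      rw [Finset.mul_sum]
      refine (norm_sum_le _ _).trans (Finset.sum_le_sum fun i _ => ?_)
      refine (norm_add_le _ _).trans ?_
      rw [norm_mul, norm_mul, RCLike.norm_ofReal, RCLike.norm_ofReal, mul_add]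
      have := hφ x i
      have := hφ' x i
      gcongr
    have h3 : (∑ i : Fin d, (‖u (x + Pi.single i 1)‖ + ‖u (x - Pi.single i 1)‖)) ^ 2 ≤
        d * ∑ i : Fin d, (‖u (x + Pi.single i 1)‖ + ‖u (x - Pi.single i 1)‖) ^ 2 := by
      have := sq_sum_le_card_mul_sum_sq (s := (Finset.univ : Finset (Fin d)))
        (f := fun i => ‖u (x + Pi.single i 1)‖ + ‖u (x - Pi.single i 1)‖)
      rw [Finset.card_univ, Fintype.card_fin] at this
      exact this
    have h4 : ∑ i : Fin d, (‖u (x + Pi.single i 1)‖ + ‖u (x - Pi.single i 1)‖) ^ 2 ≤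
        2 * ∑ i : Fin d, (‖u (x + Pi.single i 1)‖ ^ 2 + ‖u (x - Pi.single i 1)‖ ^ 2) := by
      rw [Finset.mul_sum]
      refine Finset.sum_le_sum fun i _ => ?_
      nlinarith [sq_nonneg (‖u (x + Pi.single i 1)‖ - ‖u (x - Pi.single i 1)‖)]
    calc ‖cm φ u x‖ ^ 2 ≤
        (ε * ∑ i : Fin d, (‖u (x + Pi.single i 1)‖ + ‖u (x - Pi.single i 1)‖)) ^ 2 :=
          pow_le_pow_left₀ (norm_nonneg _) h2 2
      _ = ε ^ 2 * (∑ i : Fin d, (‖u (x + Pi.single i 1)‖ + ‖u (x - Pi.single i 1)‖)) ^ 2 := by ring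
      _ ≤ ε ^ 2 * (d * (2 * ∑ i : Fin d,
          (‖u (x + Pi.single i 1)‖ ^ 2 + ‖u (x - Pi.single i 1)‖ ^ 2))) := by
          gcongr
          exact h3.trans (by gcongr)
      _ = _ := by ring
  obtain ⟨n1, n2⟩ := nb_sum (fun x : Zd d => ‖u x‖ ^ 2) hu
  have hs : Summable fun x => ‖cm φ u x‖ ^ 2 :=
    Summable.of_nonneg_of_le (fun x => by positivity) h1 (n1.mul_left _)
  refine ⟨hs, ?_⟩
  calc ∑' x, ‖cm φ u x‖ ^ 2 ≤ ∑' x, ε ^ 2 * (2 * d) * ∑ i : Fin d,
      (‖u (x + Pi.single i 1)‖ ^ 2 + ‖u (x - Pi.single i 1)‖ ^ 2) :=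
        hs.tsum_le_tsum h1 (n1.mul_left _)
    _ = _ := by
        rw [tsum_mul_left, n2]
        ring

/-- the commutator of the sum over the neighbours -/
theorem cm_eq (φ : Zd d → ℝ) (u : Zd d → 𝕜) (x : Zd d) :
    ∑ i : Fin d, (((φ (x + Pi.single i 1) : ℝ) : 𝕜) * u (x + Pi.single i 1) +
      ((φ (x - Pi.single i 1) : ℝ) : 𝕜) * u (x - Pi.single i 1)) =
    ((φ x : ℝ) : 𝕜) * ∑ i : Fin d, (u (x + Pi.single i 1) + u (x - Pi.single i 1)) +
      cm φ u x := by
  unfold cm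
  rw [Finset.mul_sum, ← Finset.sum_add_distrib]
  refine Finset.sum_congr rfl fun i _ => ?_
  push_cast
  ring

/-- the cut-off -/
noncomputable def co (a : Zd d) (R : ℝ) (x : Zd d) : ℝ := max 0 (min 1 (2 - ‖x - a‖ / R))

theorem co_nonneg (a : Zd d) (R : ℝ) (x : Zd d) : 0 ≤ co a R x := le_max_left _ _

theorem co_le_one (a : Zd d) (R : ℝ) (x : Zd d) : co a R x ≤ 1 :=
  max_le zero_le_one (min_le_left _ _)

theorem co_one (a : Zd d) (R : ℝ) (hR : 0 < R) (x : Zd d) (hx : ‖x - a‖ ≤ R) : co a R x = 1 := by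
  unfold co
  have h1 : ‖x - a‖ / R ≤ 1 := by
    rw [div_le_one hR]
    exact hx
  rw [min_eq_left (by linarith), max_eq_right zero_le_one]

theorem co_zero (a : Zd d) (R : ℝ) (hR : 0 < R) (x : Zd d) (hx : 2 * R ≤ ‖x - a‖) :
    co a R x = 0 := by
  unfold co
  have h1 : 2 ≤ ‖x - a‖ / R := by
    rw [le_div_iff₀ hR]
    exact hx
  exact max_eq_left ((min_le_right _ _).trans (by linarith))

theorem single_norm (i : Fin d) : ‖(Pi.single i 1 : Zd d)‖ ≤ 1 := by
  refine (pi_norm_le_iff_of_nonneg zero_le_one).2 fun j => ?_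
  by_cases h : j = i
  · subst h
    rw [Pi.single_eq_same]
    simp
  · rw [Pi.single_eq_of_ne h]
    simp

theorem clip_lip (s t : ℝ) : |max 0 (min 1 s) - max 0 (min 1 t)| ≤ |s - t| := by
  rw [abs_le]
  have h := abs_le.1 (le_refl |s - t|)
  constructor
  · rcases le_total 1 s with h1 | h1 <;> rcases le_total 1 t with h2 | h2 <;>
    rcases le_total 0 s with h3 | h3 <;> rcases le_total 0 t with h4 | h4 <;>
    simp only [h1, h2, h3, h4, min_eq_left, min_eq_right, max_eq_left, max_eq_right,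
      max_eq_right zero_le_one] <;> linarith [abs_nonneg (s - t)]
  · rcases le_total 1 s with h1 | h1 <;> rcases le_total 1 t with h2 | h2 <;>
    rcases le_total 0 s with h3 | h3 <;> rcases le_total 0 t with h4 | h4 <;>
    simp only [h1, h2, h3, h4, min_eq_left, min_eq_right, max_eq_left, max_eq_right,
      max_eq_right zero_le_one] <;> linarith [abs_nonneg (s - t)]

theorem co_lip (a : Zd d) (R : ℝ) (hR : 0 < R) (x : Zd d) (i : Fin d) :
    |co a R (x + Pi.single i 1) - co a R x| ≤ 1 / R := by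
  unfold co
  refine (clip_lip _ _).trans ?_
  have e1 : 2 - ‖x + Pi.single i 1 - a‖ / R - (2 - ‖x - a‖ / R) =
      (‖x - a‖ - ‖x + Pi.single i 1 - a‖) / R := by ring
  rw [e1, abs_div, abs_of_pos hR]
  gcongr
  refine (abs_norm_sub_norm_le _ _).trans ?_
  have e2 : x - a - (x + Pi.single i 1 - a) = -(Pi.single i 1 : Zd d) := by abel
  rw [e2, norm_neg]
  exact single_norm i

end Pool.Agent.H189.U
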