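import Pool.Agent.H189.U.Res2
import Pool.Agent.TH794.QD.Evo

/-! The Schrödinger evolution for an arbitrary real potential: existence and uniqueness. -/

set_option autoImplicit false
set_option linter.unusedSectionVars false
set_option linter.unusedVariables false

open scoped BigOperators ComplexConjugate Topology
open Set Filter

namespace Pool.Agent.H189.U

open Pool.Agent.W788.LD.Spec (S symm summ_mul summ_shift shiftsum)
open Pool.Agent.H4R2.LO (Zd)
open Pool.Agent.TH794.QD (Sol exists_sol)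

variable {d : ℕ}

theorem ball_fin (a : Zd d) (r : ℝ) : {x : Zd d | ‖x - a‖ ≤ r}.Finite := by
  have h1 : {x : Zd d | ‖x - a‖ ≤ r} = Metric.closedBall a r := by
    ext x
    rw [Metric.mem_closedBall, dist_eq_norm]
    rfl
  rw [h1]
  exact (isCompact_closedBall a r).finite DiscreteTopology.isDiscrete

/-- the ball as a finite set -/
noncomputable def bl (a : Zd d) (r : ℝ) : Finset (Zd d) := (ball_fin a r).toFinset

theorem mem_bl (a : Zd d) (r : ℝ) (x : Zd d) : x ∈ bl a r ↔ ‖x - a‖ ≤ r := by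
  unfold bl
  rw [Set.Finite.mem_toFinset]
  rfl

/-- the local mass -/
noncomputable def lm (a : Zd d) (R : ℝ) (u : Zd d → ℂ) : ℝ :=
  ∑ x ∈ bl a (2 * R), co a R x ^ 2 * ‖u x‖ ^ 2

theorem lm_tsum (a : Zd d) (R : ℝ) (hR : 0 < R) (u : Zd d → ℂ) :
    lm a R u = ∑' x, co a R x ^ 2 * ‖u x‖ ^ 2 := by
  unfold lm
  rw [tsum_eq_sum]
  intro x hx
  rw [mem_bl, not_le] at hx
  rw [co_zero a R hR x hx.le]
  ring

theorem lm_le (a : Zd d) (R : ℝ) (hR : 0 < R) (u : Zd d → ℂ) (hu : Summable fun x => ‖u x‖ ^ 2) :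
    lm a R u ≤ ∑' x, ‖u x‖ ^ 2 := by
  rw [lm_tsum a R hR]
  have h1 : ∀ x, co a R x ^ 2 * ‖u x‖ ^ 2 ≤ ‖u x‖ ^ 2 := fun x =>
    mul_le_of_le_one_left (by positivity) (pow_le_one₀ (co_nonneg a R x) (co_le_one a R x))
  exact (Summable.of_nonneg_of_le (fun x => by positivity) h1 hu).tsum_le_tsum h1 hu

theorem lm_pt (a : Zd d) (R : ℝ) (hR : 0 < R) (u : Zd d → ℂ) (x : Zd d) (hx : ‖x - a‖ ≤ R) :
    ‖u x‖ ^ 2 ≤ lm a R u := by
  unfold lm
  have h1 := Finset.single_le_sum (f := fun x => co a R x ^ 2 * ‖u x‖ ^ 2)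
    (fun x _ => by positivity) ((mem_bl a (2 * R) x).2 (by linarith))
  simp only [co_one a R hR x hx, one_pow, one_mul] at h1
  exact h1

/-- the local mass changes slowly -/
theorem lm_deriv (hd : 1 ≤ d) (a : Zd d) (R : ℝ) (hR : 0 < R) (W : Zd d → ℝ)
    (δ : ℝ → Zd d → ℂ) (M : ℝ)
    (hode : ∀ t x, ‖x - a‖ ≤ 2 * R →
      HasDerivAt (fun s => δ s x) (-Complex.I * (-S (δ t) x + (W x : ℂ) * δ t x)) t)
    (hs : ∀ t, Summable fun x => ‖δ t x‖ ^ 2) (hM : ∀ t, ∑' x, ‖δ t x‖ ^ 2 ≤ M) (t : ℝ) :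
    ∃ D : ℝ, HasDerivAt (fun s => lm a R (δ s)) D t ∧ |D| ≤ 4 * d / R * M := by
  have hd1 : (1 : ℝ) ≤ d := by exact_mod_cast hd
  obtain ⟨φ, hφ⟩ : ∃ φ : Zd d → ℝ, φ = co a R := ⟨_, rfl⟩
  obtain ⟨u, hu⟩ : ∃ u : Zd d → ℂ, u = fun x => (φ x : ℂ) * δ t x := ⟨_, rfl⟩
  have hφ1 : ∀ x, φ x ^ 2 ≤ 1 := fun x => by
    rw [hφ]
    exact pow_le_one₀ (co_nonneg a R x) (co_le_one a R x)
  have hun : ∀ x, ‖u x‖ ^ 2 = φ x ^ 2 * ‖δ t x‖ ^ 2 := fun x => by
    rw [hu, norm_mul, mul_pow, Complex.norm_real, Real.norm_eq_abs, sq_abs]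
  have hule : ∀ x, ‖u x‖ ^ 2 ≤ ‖δ t x‖ ^ 2 := fun x => by
    rw [hun]
    exact mul_le_of_le_one_left (by positivity) (hφ1 x)
  have hus : Summable fun x => ‖u x‖ ^ 2 :=
    Summable.of_nonneg_of_le (fun x => by positivity) hule (hs t)
  have huM : ∑' x, ‖u x‖ ^ 2 ≤ M := (hus.tsum_le_tsum hule (hs t)).trans (hM t)
  have hM0 : 0 ≤ M := (tsum_nonneg fun x => by positivity).trans huM
  obtain ⟨c1, c2⟩ := cm_bound (𝕜 := ℂ) φ (1 / R) (by positivity) (by
    rw [hφ]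
    exact co_lip a R hR) (δ t) (hs t)
  -- the derivative
  refine ⟨∑ x ∈ bl a (2 * R), φ x ^ 2 * (2 * (-(conj (δ t x) * S (δ t) x).im)), ?_, ?_⟩
  · unfold lm
    refine HasDerivAt.fun_sum fun x hx => ?_
    rw [mem_bl] at hx
    have h1 := (hode t x hx).norm_sq
    have h2 : 2 * inner ℝ (δ t x) (-Complex.I * (-S (δ t) x + (W x : ℂ) * δ t x)) =
        2 * (-(conj (δ t x) * S (δ t) x).im) := by
      rw [Complex.inner]
      congr 1
      have e1 : -Complex.I * (-S (δ t) x + (W x : ℂ) * δ t x) * conj (δ t x) =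
          Complex.I * (conj (δ t x) * S (δ t) x) -
            Complex.I * ((W x : ℂ) * (conj (δ t x) * δ t x)) := by ring
      have e2 : conj (δ t x) * δ t x = ((‖δ t x‖ ^ 2 : ℝ) : ℂ) := by
        rw [mul_comm, Complex.mul_conj, Complex.normSq_eq_norm_sq]
      rw [e1, e2, Complex.sub_re, Complex.I_mul_re, Complex.I_mul_re, ← Complex.ofReal_mul,
        Complex.ofReal_im]
      ring
    rw [← h2, ← hφ]
    exact h1.const_mul _
  -- its size
  have e1 : ∑ x ∈ bl a (2 * R), φ x ^ 2 * (2 * (-(conj (δ t x) * S (δ t) x).im)) =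
      -2 * (∑' x, conj (u x) * ((φ x : ℂ) * S (δ t) x)).im := by
    have e2 : ∑' x, conj (u x) * ((φ x : ℂ) * S (δ t) x) =
        ∑ x ∈ bl a (2 * R), conj (u x) * ((φ x : ℂ) * S (δ t) x) := by
      rw [tsum_eq_sum]
      intro x hx
      rw [mem_bl, not_le] at hx
      have : φ x = 0 := by rw [hφ]; exact co_zero a R hR x hx.le
      rw [this]
      simp
    rw [e2, Complex.im_sum, Finset.mul_sum]
    refine Finset.sum_congr rfl fun x _ => ?_
    have e3 : conj (u x) * ((φ x : ℂ) * S (δ t) x) =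
        ((φ x ^ 2 : ℝ) : ℂ) * (conj (δ t x) * S (δ t) x) := by
      rw [hu]
      simp only [map_mul, Complex.conj_ofReal]
      push_cast
      ring
    rw [e3, Complex.im_ofReal_mul]
    ring
  have e4 : ∀ x, (φ x : ℂ) * S (δ t) x = S u x - cm φ (δ t) x := by
    intro x
    have := cm_eq (𝕜 := ℂ) φ (δ t) x
    simp only [RCLike.ofReal_eq_complex_ofReal] at this
    unfold S
    rw [hu]
    simp only
    rw [this]
    ring
  obtain ⟨s1, s2, s3⟩ := symm u u hus hus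
  have h0 : (∑' x, conj (u x) * S u x).im = 0 := by
    have h2 : ∑' x, conj (S u x) * u x = conj (∑' x, conj (u x) * S u x) := by
      rw [Complex.conj_tsum]
      exact tsum_congr fun x => by
        rw [map_mul, Complex.conj_conj, mul_comm]
    rw [h2] at s3
    exact Complex.conj_eq_iff_im.1 s3.symm
  have hcs : Summable fun x => conj (u x) * cm φ (δ t) x := summ_mul u _ hus c1
  have e5 : ∑' x, conj (u x) * ((φ x : ℂ) * S (δ t) x) =
      (∑' x, conj (u x) * S u x) - ∑' x, conj (u x) * cm φ (δ t) x := by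
    rw [← s1.tsum_sub hcs]
    refine tsum_congr fun x => ?_
    rw [e4]
    ring
  rw [e1, e5, Complex.sub_im, h0, zero_sub, abs_mul, abs_neg, abs_neg,
    abs_of_pos (by norm_num : (0 : ℝ) < 2)]
  have h6 : ‖∑' x, conj (u x) * cm φ (δ t) x‖ ≤ 2 * d / R * M := by
    obtain ⟨c, hc⟩ : ∃ c : ℝ, c = 2 * d * (1 / R) := ⟨_, rfl⟩
    have hc0 : 0 < c := by rw [hc]; positivity
    have hb : HasSum (fun x => (c * ‖u x‖ ^ 2 + c⁻¹ * ‖cm φ (δ t) x‖ ^ 2) / 2)
        ((c * ∑' x, ‖u x‖ ^ 2 + c⁻¹ * ∑' x, ‖cm φ (δ t) x‖ ^ 2) / 2) :=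
      ((hus.hasSum.mul_left c).add (c1.hasSum.mul_left c⁻¹)).div_const 2
    have h7 := tsum_of_norm_bounded hb (f := fun x => conj (u x) * cm φ (δ t) x) (fun x => by
      rw [norm_mul, RCLike.norm_conj]
      have h8 : 0 ≤ (c * ‖u x‖ - ‖cm φ (δ t) x‖) ^ 2 := sq_nonneg _
      have h9 : c * ‖u x‖ ^ 2 + c⁻¹ * ‖cm φ (δ t) x‖ ^ 2 =
          c⁻¹ * ((c * ‖u x‖ - ‖cm φ (δ t) x‖) ^ 2) + 2 * (‖u x‖ * ‖cm φ (δ t) x‖) := by
        field_simp
        ring
      rw [h9]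
      have : 0 ≤ c⁻¹ * (c * ‖u x‖ - ‖cm φ (δ t) x‖) ^ 2 := by positivity
      linarith)
    refine h7.trans ?_
    rw [← hc] at c2
    have h10 : c⁻¹ * ∑' x, ‖cm φ (δ t) x‖ ^ 2 ≤ c * M := by
      rw [inv_mul_le_iff₀ hc0]
      calc ∑' x, ‖cm φ (δ t) x‖ ^ 2 ≤ c ^ 2 * ∑' x, ‖δ t x‖ ^ 2 := c2
        _ ≤ c ^ 2 * M := by
            gcongr
            exact hM t
        _ = c * (c * M) := by ring
    have h11 : c * ∑' x, ‖u x‖ ^ 2 ≤ c * M := by gcongr
    have h12 : 2 * d / R * M = c * M := by rw [hc]; ring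
    rw [h12]
    linarith
  have h7 := (Complex.abs_im_le_norm (∑' x, conj (u x) * cm φ (δ t) x)).trans h6
  calc 2 * |(∑' x, conj (u x) * cm φ (δ t) x).im| ≤ 2 * (2 * d / R * M) := by gcongr
    _ = 4 * d / R * M := by ring

theorem lm_grow (hd : 1 ≤ d) (a : Zd d) (R : ℝ) (hR : 0 < R) (W : Zd d → ℝ)
    (δ : ℝ → Zd d → ℂ) (M : ℝ)
    (hode : ∀ t x, ‖x - a‖ ≤ 2 * R →
      HasDerivAt (fun s => δ s x) (-Complex.I * (-S (δ t) x + (W x : ℂ) * δ t x)) t)
    (hs : ∀ t, Summable fun x => ‖δ t x‖ ^ 2) (hM : ∀ t, ∑' x, ‖δ t x‖ ^ 2 ≤ M) (t : ℝ) :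
    |lm a R (δ t) - lm a R (δ 0)| ≤ 4 * d / R * M * |t| := by
  choose D hD hDb using fun t => lm_deriv hd a R hR W δ M hode hs hM t
  have h1 := (convex_univ (𝕜 := ℝ) (E := ℝ)).norm_image_sub_le_of_norm_hasDerivWithin_le
    (f := fun s => lm a R (δ s)) (f' := D) (C := 4 * d / R * M)
    (fun x _ => (hD x).hasDerivWithinAt) (fun x _ => hDb x) (mem_univ 0) (mem_univ t)
  rw [Real.norm_eq_abs, Real.norm_eq_abs, sub_zero] at h1
  exact h1

theorem S_sub (u v : Zd d → ℂ) (x : Zd d) : S (fun y => u y - v y) x = S u x - S v x := by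
  unfold S
  rw [← Finset.sum_sub_distrib]
  exact Finset.sum_congr rfl fun i _ => by ring

/-- comparison of two evolutions -/
theorem evo_cmp (hd : 1 ≤ d) {V V' : Zd d → ℝ} {a : Zd d} {ψ ψ' : ℝ → Zd d → ℂ}
    (h : Sol d V a ψ) (h' : Sol d V' a ψ') (R : ℝ) (hR : 0 < R)
    (hV : ∀ x, ‖x - a‖ ≤ 2 * R → V x = V' x) (t : ℝ) (x : Zd d) (hx : ‖x - a‖ ≤ R) :
    ‖ψ t x - ψ' t x‖ ^ 2 ≤ 16 * d / R * |t| := by
  obtain ⟨δ, hδ⟩ : ∃ δ : ℝ → Zd d → ℂ, δ = fun t x => ψ t x - ψ' t x := ⟨_, rfl⟩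
  have hb : ∀ t x, ‖δ t x‖ ^ 2 ≤ 2 * ‖ψ t x‖ ^ 2 + 2 * ‖ψ' t x‖ ^ 2 := by
    intro t x
    rw [hδ]
    have h1 := norm_sub_le (ψ t x) (ψ' t x)
    have h2 := pow_le_pow_left₀ (norm_nonneg _) h1 2
    nlinarith [sq_nonneg (‖ψ t x‖ - ‖ψ' t x‖)]
  have hbs : ∀ t, HasSum (fun x => 2 * ‖ψ t x‖ ^ 2 + 2 * ‖ψ' t x‖ ^ 2) (2 * 1 + 2 * 1) :=
    fun t => ((h.norm t).mul_left 2).add ((h'.norm t).mul_left 2)
  have hs : ∀ t, Summable fun x => ‖δ t x‖ ^ 2 := fun t =>
    Summable.of_nonneg_of_le (fun x => by positivity) (hb t) (hbs t).summable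
  have hM : ∀ t, ∑' x, ‖δ t x‖ ^ 2 ≤ 4 := fun t => by
    refine ((hs t).tsum_le_tsum (hb t) (hbs t).summable).trans ?_
    rw [(hbs t).tsum_eq]
    norm_num
  have h1 := lm_grow hd a R hR V δ 4 (fun t x hx => by
    have e1 := (h.ode t x).sub (h'.ode t x)
    rw [hδ]
    refine e1.congr_deriv ?_
    simp only
    rw [S_sub, ← hV x hx]
    ring) hs hM t
  have h0 : lm a R (δ 0) = 0 := by
    unfold lm
    refine Finset.sum_eq_zero fun x _ => ?_
    rw [hδ]
    simp only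
    rw [h.init, h'.init, sub_self, norm_zero]
    ring
  rw [h0, sub_zero] at h1
  have h2 := lm_pt a R hR (δ t) x hx
  rw [hδ] at h2 h1
  refine h2.trans ((le_abs_self _).trans (h1.trans (le_of_eq ?_)))
  ring

/-- uniqueness -/
theorem evo_unique (hd : 1 ≤ d) {V : Zd d → ℝ} {a : Zd d} {ψ ψ' : ℝ → Zd d → ℂ}
    (h : Sol d V a ψ) (h' : Sol d V a ψ') : ψ = ψ' := by
  funext t x
  have h1 : ∀ n : ℕ, ‖ψ t x - ψ' t x‖ ^ 2 ≤ 16 * d * |t| / (‖x - a‖ + 1 + n) := by
    intro n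
    have hR : 0 < ‖x - a‖ + 1 + n := by positivity
    have h2 := evo_cmp hd h h' (‖x - a‖ + 1 + n) hR (fun _ _ => rfl) t x (by
      have := Nat.cast_nonneg (α := ℝ) n
      linarith)
    refine h2.trans (le_of_eq ?_)
    ring
  have h2 : Tendsto (fun n : ℕ => 16 * d * |t| / (‖x - a‖ + 1 + n)) atTop (𝓝 0) :=
    tendsto_const_nhds.div_atTop (tendsto_atTop_add_const_left _ _ tendsto_natCast_atTop_atTop)
  have h3 : ‖ψ t x - ψ' t x‖ ^ 2 ≤ 0 := ge_of_tendsto' h2 h1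
  have h4 : ‖ψ t x - ψ' t x‖ = 0 := by
    have := sq_nonneg ‖ψ t x - ψ' t x‖
    exact pow_eq_zero_iff two_ne_zero |>.1 (le_antisymm h3 this)
  exact sub_eq_zero.1 (norm_eq_zero.1 h4)

/-- **the evolution exists for every real potential** -/
theorem evo_exists (hd : 1 ≤ d) (V : Zd d → ℝ) (a : Zd d) : ∃ ψ : ℝ → Zd d → ℂ, Sol d V a ψ := by
  have hd1 : (1 : ℝ) ≤ d := by exact_mod_cast hd
  obtain ⟨Vn, hVn⟩ : ∃ Vn : ℕ → Zd d → ℝ, Vn = fun (n : ℕ) x =>
    if ‖x - a‖ ≤ 2 * ((n : ℝ) + 1) then V x else 0 := ⟨_, rfl⟩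
  have hVe : ∀ (n : ℕ) x, ‖x - a‖ ≤ 2 * ((n : ℝ) + 1) → Vn n x = V x := fun n x hx => by
    rw [hVn]
    simp only
    rw [if_pos hx]
  have hVb : ∀ n : ℕ, ∃ B : ℝ, ∀ x, |Vn n x| ≤ B := by
    intro n
    refine ⟨∑ y ∈ bl a (2 * ((n : ℝ) + 1)), |V y|, fun x => ?_⟩
    rw [hVn]
    simp only
    split_ifs with hx
    · exact Finset.single_le_sum (f := fun y => |V y|) (fun y _ => abs_nonneg _)
        ((mem_bl a _ x).2 hx)
    · rw [abs_zero]
      exact Finset.sum_nonneg fun y _ => abs_nonneg _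
  choose B hB using hVb
  choose ψn hψn using fun n => exists_sol (Vn n) (B n) (hB n) a
  -- Cauchy
  have hc : ∀ (n m : ℕ), n ≤ m → ∀ (t : ℝ) (x : Zd d), ‖x - a‖ ≤ (n : ℝ) + 1 →
      ‖ψn n t x - ψn m t x‖ ^ 2 ≤ 16 * d / ((n : ℝ) + 1) * |t| := by
    intro n m hnm t x hx
    have hnm' : (n : ℝ) ≤ m := by exact_mod_cast hnm
    refine evo_cmp hd (hψn n) (hψn m) ((n : ℝ) + 1) (by positivity) (fun y hy => ?_) t x hx
    rw [hVe n y hy, hVe m y (by linarith)]
  have hlim : ∀ (t : ℝ) (x : Zd d), ∃ y : ℂ, Tendsto (fun n => ψn n t x) atTop (𝓝 y) := by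
    intro t x
    refine cauchySeq_tendsto_of_complete ?_
    rw [Metric.cauchySeq_iff']
    intro ε hε
    obtain ⟨N, hN⟩ := exists_nat_gt (max ‖x - a‖ (16 * d * |t| / ε ^ 2))
    refine ⟨N, fun n hn => ?_⟩
    have h1 := hc N n hn t x (by
      have := (le_max_left ‖x - a‖ (16 * d * |t| / ε ^ 2)).trans hN.le
      linarith)
    rw [dist_eq_norm, norm_sub_rev]
    have h2 : 16 * d / ((N : ℝ) + 1) * |t| < ε ^ 2 := by
      have h3 := (le_max_right ‖x - a‖ (16 * d * |t| / ε ^ 2)).trans_lt hN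
      rw [div_lt_iff₀ (by positivity)] at h3
      rw [div_mul_eq_mul_div, div_lt_iff₀ (by positivity)]
      have : 0 < ε ^ 2 := by positivity
      nlinarith
    exact lt_of_pow_lt_pow_left₀ 2 hε.le (h1.trans_lt h2)
  choose ψ hψ using hlim
  have hunif : ∀ (n : ℕ) (t : ℝ) (x : Zd d), ‖x - a‖ ≤ (n : ℝ) + 1 →
      ‖ψn n t x - ψ t x‖ ^ 2 ≤ 16 * d / ((n : ℝ) + 1) * |t| := by
    intro n t x hx
    have h1 : Tendsto (fun m => ‖ψn n t x - ψn m t x‖ ^ 2) atTop (𝓝 (‖ψn n t x - ψ t x‖ ^ 2)) :=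
      ((tendsto_const_nhds.sub (hψ t x)).norm).pow 2
    refine le_of_tendsto h1 ?_
    filter_upwards [eventually_ge_atTop n] with m hm
    exact hc n m hm t x hx
  -- local uniform convergence
  have hlu : ∀ x : Zd d, TendstoLocallyUniformlyOn (fun n t => ψn n t x) (fun t => ψ t x) atTop
      (univ : Set ℝ) := by
    intro x
    rw [Metric.tendstoLocallyUniformlyOn_iff]
    intro ε hε t _
    refine ⟨Metric.ball t 1, mem_nhdsWithin_of_mem_nhds (Metric.ball_mem_nhds t one_pos), ?_⟩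
    obtain ⟨N, hN⟩ := exists_nat_gt (max ‖x - a‖ (16 * d * (|t| + 1) / ε ^ 2))
    filter_upwards [eventually_ge_atTop N] with n hn s hs
    have hnN : (N : ℝ) ≤ n := by exact_mod_cast hn
    have h1 := hunif n s x (by
      have := (le_max_left ‖x - a‖ (16 * d * (|t| + 1) / ε ^ 2)).trans hN.le
      linarith)
    have hst : |s| ≤ |t| + 1 := by
      rw [Metric.mem_ball, Real.dist_eq] at hs
      have := abs_sub_abs_le_abs_sub s t
      linarith
    rw [dist_eq_norm, norm_sub_rev]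
    have h2 : 16 * d / ((n : ℝ) + 1) * |s| < ε ^ 2 := by
      have h3 := (le_max_right ‖x - a‖ (16 * d * (|t| + 1) / ε ^ 2)).trans_lt hN
      rw [div_lt_iff₀ (by positivity)] at h3
      rw [div_mul_eq_mul_div, div_lt_iff₀ (by positivity)]
      have h4 : 0 < ε ^ 2 := by positivity
      have h5 : (16 : ℝ) * d * |s| ≤ 16 * d * (|t| + 1) := by gcongr
      nlinarith
    exact lt_of_pow_lt_pow_left₀ 2 hε.le (h1.trans_lt h2)
  refine ⟨ψ, fun x => ?_, fun t x => ?_, fun t => ?_⟩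
  · have h1 : Tendsto (fun n : ℕ => ψn n 0 x) atTop (𝓝 (if x = a then 1 else 0)) := by
      simp only [(hψn _).init]
      exact tendsto_const_nhds
    exact tendsto_nhds_unique (hψ 0 x) h1
  · -- the equation
    have h1 : TendstoLocallyUniformlyOn
        (fun n t => -Complex.I * (-S (ψn n t) x + (V x : ℂ) * ψn n t x))
        (fun t => -Complex.I * (-S (ψ t) x + (V x : ℂ) * ψ t x)) atTop (univ : Set ℝ) := by
      have hcl : ∀ (c : ℂ) (f : ℕ → ℝ → ℂ) (g : ℝ → ℂ),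
          TendstoLocallyUniformlyOn f g atTop (univ : Set ℝ) →
          TendstoLocallyUniformlyOn (fun n t => c * f n t) (fun t => c * g t) atTop
            (univ : Set ℝ) := by
        intro c f g hfg
        exact (uniformContinuous_const_smul c).comp_tendstoLocallyUniformlyOn hfg
      have hadd : ∀ (f f' : ℕ → ℝ → ℂ) (g g' : ℝ → ℂ),
          TendstoLocallyUniformlyOn f g atTop (univ : Set ℝ) →
          TendstoLocallyUniformlyOn f' g' atTop (univ : Set ℝ) →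
          TendstoLocallyUniformlyOn (fun n t => f n t + f' n t) (fun t => g t + g' t) atTop
            (univ : Set ℝ) := by
        intro f f' g g' h1 h2
        exact h1.add h2
      have hsum : ∀ (s : Finset (Fin d)), TendstoLocallyUniformlyOn
          (fun n t => ∑ i ∈ s, (ψn n t (x + Pi.single i 1) + ψn n t (x - Pi.single i 1)))
          (fun t => ∑ i ∈ s, (ψ t (x + Pi.single i 1) + ψ t (x - Pi.single i 1))) atTop
            (univ : Set ℝ) := by
        intro s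
        classical
        induction s using Finset.induction_on with
        | empty =>
          simp only [Finset.sum_empty]
          rw [Metric.tendstoLocallyUniformlyOn_iff]
          intro ε hε t _
          exact ⟨univ, univ_mem, Eventually.of_forall fun n y _ => by simpa using hε⟩
        | insert i s hi ih =>
          simp only [Finset.sum_insert hi]
          exact hadd _ _ _ _ (hadd _ _ _ _ (hlu _) (hlu _)) ih
      refine hcl _ _ _ (hadd _ _ _ _ ?_ (hcl _ _ _ (hlu x)))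
      have h2 := hcl (-1) _ _ (hsum Finset.univ)
      refine (h2.congr fun n t _ => ?_).congr_right fun t _ => ?_
      · unfold S
        simp
      · unfold S
        simp
    refine hasDerivAt_of_tendstoLocallyUniformlyOn isOpen_univ h1 ?_ (fun s _ => hψ s x)
      (mem_univ t)
    obtain ⟨N, hN⟩ := exists_nat_gt ‖x - a‖
    filter_upwards [eventually_ge_atTop N] with n hn s _
    have hnN : (N : ℝ) ≤ n := by exact_mod_cast hn
    have h2 := (hψn n).ode s x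
    rw [hVe n x (by linarith [norm_nonneg (x - a)])] at h2
    exact h2
  · -- the norm
    have hup : ∀ s : Finset (Zd d), ∑ x ∈ s, ‖ψ t x‖ ^ 2 ≤ 1 := by
      intro s
      have h1 : Tendsto (fun n => ∑ x ∈ s, ‖ψn n t x‖ ^ 2) atTop (𝓝 (∑ x ∈ s, ‖ψ t x‖ ^ 2)) :=
        tendsto_finsetSum s fun x _ => (hψ t x).norm.pow 2
      refine le_of_tendsto h1 (Eventually.of_forall fun n => ?_)
      rw [← ((hψn n).norm t).tsum_eq]
      exact ((hψn n).norm t).summable.sum_le_tsum s fun x _ => by positivity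
    have hsm : Summable fun x => ‖ψ t x‖ ^ 2 :=
      summable_of_sum_le (fun x => by positivity) hup
    have h1 : ∑' x, ‖ψ t x‖ ^ 2 ≤ 1 := hsm.tsum_le_of_sum_le hup
    have h2 : ∀ R : ℕ, 1 - 4 * d / ((R : ℝ) + 1) * 1 * |t| ≤ ∑' x, ‖ψ t x‖ ^ 2 := by
      intro R
      have hR : (0 : ℝ) < (R : ℝ) + 1 := by positivity
      refine le_trans ?_ (lm_le a _ hR (ψ t) hsm)
      have h3 : Tendsto (fun n => lm a ((R : ℝ) + 1) (ψn n t)) atTop
          (𝓝 (lm a ((R : ℝ) + 1) (ψ t))) := by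
        unfold lm
        exact tendsto_finsetSum _ fun x _ => ((hψ t x).norm.pow 2).const_mul _
      refine ge_of_tendsto h3 (Eventually.of_forall fun n => ?_)
      have h4 := lm_grow hd a _ hR (Vn n) (ψn n) 1 (fun t x _ => (hψn n).ode t x)
        (fun t => ((hψn n).norm t).summable) (fun t => ((hψn n).norm t).tsum_eq.le) t
      have h5 : 1 ≤ lm a ((R : ℝ) + 1) (ψn n 0) := by
        have h6 := lm_pt a _ hR (ψn n 0) a (by simp; positivity)
        rw [(hψn n).init a, if_pos rfl, norm_one, one_pow] at h6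
        exact h6
      have := (abs_le.1 h4).1
      linarith
    have h3 : (1 : ℝ) ≤ ∑' x, ‖ψ t x‖ ^ 2 := by
      have h4 : Tendsto (fun R : ℕ => 1 - 4 * d / ((R : ℝ) + 1) * 1 * |t|) atTop
          (𝓝 (1 - 0 * 1 * |t|)) := by
        refine Tendsto.const_sub _ (Tendsto.mul_const _ (Tendsto.mul_const _ ?_))
        exact tendsto_const_nhds.div_atTop
          (tendsto_atTop_add_const_right _ _ tendsto_natCast_atTop_atTop)
      have h5 := le_of_tendsto' h4 h2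
      linarith
    have h4 := hsm.hasSum
    rwa [le_antisymm h1 h3] at h4

end Pool.Agent.H189.U
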