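import Pool.Agent.H189.U.SM
import Pool.Agent.H189.U.Dom
import Pool.Agent.Results.MP_28b024_mp.BeyondKineticScale

/-! Flatness of spectral measures and eigenfunctions for Gaussian variables. -/

set_option autoImplicit false
set_option linter.unusedSectionVars false
set_option linter.unusedVariables false

open scoped BigOperators ComplexConjugate Topology
open Set MeasureTheory ProbabilityTheory Filter

namespace Pool.Agent.H189.U

open Pool.Agent.W788.BK (SM1 engine C1 C1_ge)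
open Pool.Agent.H4R2.LO (Zd)
open Pool.Agent.H189.G
open Pool.Agent.R988.Tor (ev1 ev_extract)

/-- local smoothing for Gaussian variables -/
theorem smG (d : ℕ) (hd : 3 ≤ d) : ∃ σ0 K : ℝ, 0 < σ0 ∧ σ0 ≤ 1 / 3 ∧ 0 < K ∧
    ∀ σ : ℝ, 0 < σ → σ ≤ σ0 →
      ∃ G : Set (Zd d → ℝ), MeasurableSet G ∧
        1 - Real.exp (-σ ^ (-(1 / 301) : ℝ)) ≤
          (Measure.infinitePi fun _ : Zd d => gaussianReal 0 1).real G ∧
        ∀ ξ ∈ G, ∃ t g : ℝ, 0 < t ∧ t ≤ σ ^ (53 / 25 : ℝ) ∧ 0 ≤ g ∧ g ≤ K * Real.log (1 / σ) ∧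
          t ≤ 1 / 2 ∧ SM1 d σ (Real.exp (σ ^ (-(1 / 301) : ℝ))) t g ξ := by
  obtain ⟨y0, h0⟩ := engine
    (Pool.Agent.W261.BK.third Pool.Agent.W540.BK.fac)
    (Pool.Agent.W240.BK.fluct (Pool.Agent.W240.BK.var Pool.Agent.W193.BK.ES.es))
    Pool.Agent.W475.BK.inv Pool.Agent.W351.BK.mb
    (Pool.Agent.W340.BK.Conc.conc Pool.Agent.W193.BK.ES.es)
    Pool.Agent.W975.BK.sup Pool.Agent.W363.BK.site
    (Pool.Agent.W465.BK.qb (Pool.Agent.W240.BK.two Pool.Agent.W918.BK.Osc.osc))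
    Pool.Agent.W475.BK.low Pool.Agent.W790.BK.ADM.adm d hd 1 one_pos
  have hC1 := C1_ge
  obtain ⟨t0, ht0, ht01, hev⟩ := ev_extract (P := fun t : ℝ =>
    (3 * t ≤ 1 ∧ Real.exp (max y0 1) * t ^ (499 / 500 : ℝ) ≤ 1) ∧
    (24 * d + 24) * t ^ (1 / 250 - 1 / 300 : ℝ) ≤ 1 ∧
    2 * t ^ (499 / 50000 - 1 / 300 : ℝ) ≤ 1 ∧ 4 * t ^ (1 / 90300 : ℝ) ≤ 1 ∧
    4 * d * t ^ (-(3 : ℝ)) ≤ Real.exp (t ^ (-(1 / 301) : ℝ))) (by
    have hmem : Set.Ioo (0 : ℝ) (1 / 3) ∈ 𝓝[>] (0 : ℝ) := Ioo_mem_nhdsGT (by norm_num)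
    filter_upwards [hmem, ev1 (Real.exp (max y0 1)) (499 / 500) (by norm_num),
      ev1 (24 * d + 24) (1 / 250 - 1 / 300) (by norm_num),
      ev1 2 (499 / 50000 - 1 / 300) (by norm_num),
      ev1 4 (1 / 90300) (by norm_num), exp_dom (4 * d) 3 (1 / 301) (by norm_num)] with
      t a1 a2 a3 a4 a5 a6
    exact ⟨⟨by linarith [a1.2], a2⟩, a3, a4, a5, a6⟩)
  refine ⟨min t0 (1 / 3), 2 * (192 * (C1 * (17 / 8))), lt_min ht0 (by norm_num), min_le_right _ _,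
    by positivity, ?_⟩
  intro σ hσ hσ0'
  have hσ0 : σ ≤ t0 := hσ0'.trans (min_le_left _ _)
  have hσ1 : σ ≤ 1 := hσ0.trans ht01
  obtain ⟨⟨b1, b2⟩, b3, b4, b5, b6⟩ := hev σ hσ hσ0
  have hpw : ∀ p q : ℝ, σ ^ p * σ ^ q = σ ^ (p + q) := fun p q => (Real.rpow_add hσ p q).symm
  have hpos : ∀ p : ℝ, 0 < σ ^ p := fun p => Real.rpow_pos_of_pos hσ p
  obtain ⟨c, hc⟩ : ∃ c : ℝ, c = σ ^ (499 / 500 : ℝ) := ⟨_, rfl⟩
  obtain ⟨B, hB⟩ : ∃ B : ℝ, B = σ ^ (-(1 / 500) : ℝ) := ⟨_, rfl⟩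
  have hc0 : 0 < c := by rw [hc]; exact hpos _
  have hB0 : 0 < B := by rw [hB]; exact hpos _
  have hcB : c = σ * B := by
    rw [hc, hB]
    nth_rewrite 2 [← Real.rpow_one σ]
    rw [hpw]
    norm_num
  have hcc : ∀ p : ℝ, c ^ p = σ ^ (499 / 500 * p) := fun p => by
    rw [hc, ← Real.rpow_mul hσ.le]
  obtain ⟨y, hy⟩ : ∃ y, y = Real.log (1 / c) := ⟨_, rfl⟩
  have hlogc : Real.log c = -y := by
    rw [hy, one_div, Real.log_inv, neg_neg]
  have hyy : max y0 1 ≤ y := by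
    rw [← hc] at b2
    have h1 : Real.exp (max y0 1) ≤ 1 / c := by
      rw [le_div_iff₀ hc0]
      exact b2
    have h2 := Real.log_le_log (Real.exp_pos _) h1
    rw [Real.log_exp] at h2
    rw [hy]
    exact h2
  have hy0 : y0 ≤ y := (le_max_left _ _).trans hyy
  have hy1 : 1 ≤ y := (le_max_right _ _).trans hyy
  have e3 : Real.exp (-1 * y) = c := by
    rw [neg_one_mul, ← hlogc, Real.exp_log hc0]
  have e1 : Real.exp (y / 100) = c ^ (-(1 / 100) : ℝ) := by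
    rw [Real.rpow_def_of_pos hc0, hlogc]
    congr 1
    ring
  have e2 : Real.exp (-(17 / 8) * y) = c ^ (17 / 8 : ℝ) := by
    rw [Real.rpow_def_of_pos hc0, hlogc]
    congr 1
    ring
  have hylog : y ≤ Real.log (1 / σ) := by
    rw [hy]
    apply Real.log_le_log (by positivity)
    apply one_div_le_one_div_of_le hσ
    rw [hc]
    nth_rewrite 1 [← Real.rpow_one σ]
    exact Real.rpow_le_rpow_of_exponent_ge hσ hσ1 (by norm_num)
  obtain ⟨G, hG, hP, hGp⟩ := h0 y hy0 (clLaw B) inferInstance (clLaw_bd B) (clLaw_mean B)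
  rw [e3, e2, e1] at hGp
  rw [e1] at hP
  obtain ⟨X, hX⟩ : ∃ X, X = σ ^ (-(1 / 300) : ℝ) := ⟨_, rfl⟩
  obtain ⟨X', hX'⟩ : ∃ X', X' = σ ^ (-(1 / 301) : ℝ) := ⟨_, rfl⟩
  obtain ⟨Y, hY⟩ : ∃ Y, Y = c ^ (-(1 / 100) : ℝ) := ⟨_, rfl⟩
  rw [← hY] at hP hGp
  rw [← hX'] at b6
  have hX1 : 1 ≤ X' := by
    rw [hX']
    exact Real.one_le_rpow_of_pos_of_le_one_of_nonpos hσ hσ1 (by norm_num)
  have hXX : 4 * X' ≤ X := by
    have e4 : X' = σ ^ (1 / 90300 : ℝ) * X := by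
      rw [hX, hX', hpw]
      norm_num
    have hX0 : 0 < X := by rw [hX]; exact hpos _
    rw [e4]
    nlinarith
  have hXB : (24 * d + 24) * X ≤ B ^ 2 := by
    have e4 : B ^ 2 = σ ^ (-(1 / 250) : ℝ) := by
      rw [hB, ← Real.rpow_natCast, ← Real.rpow_mul hσ.le]
      norm_num
    have e5 : X = σ ^ (1 / 250 - 1 / 300 : ℝ) * σ ^ (-(1 / 250) : ℝ) := by
      rw [hX, hpw]
      norm_num
    have := hpos (-(1 / 250))
    rw [e4, e5]
    calc (24 * (d : ℝ) + 24) * (σ ^ (1 / 250 - 1 / 300 : ℝ) * σ ^ (-(1 / 250) : ℝ)) =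
        ((24 * (d : ℝ) + 24) * σ ^ (1 / 250 - 1 / 300 : ℝ)) * σ ^ (-(1 / 250) : ℝ) := by ring
      _ ≤ 1 * σ ^ (-(1 / 250) : ℝ) := by gcongr
      _ = _ := one_mul _
  have hXY : 2 * X ≤ Y := by
    have e5 : X = σ ^ (499 / 50000 - 1 / 300 : ℝ) * Y := by
      rw [hX, hY, hcc, hpw]
      norm_num
    have hY0 : 0 < Y := by rw [hY]; exact Real.rpow_pos_of_pos hc0 _
    rw [e5]
    calc 2 * (σ ^ (499 / 50000 - 1 / 300 : ℝ) * Y) = (2 * σ ^ (499 / 50000 - 1 / 300 : ℝ)) * Y := by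
          ring
      _ ≤ 1 * Y := by gcongr
      _ = _ := one_mul _
  obtain ⟨G', hG', hP', hGp'⟩ := event2 B hB0 ⌊Real.exp X⌋₊ G hG _ hP
  have hNX : ((⌊Real.exp X⌋₊ : ℕ) : ℝ) ≤ Real.exp X := Nat.floor_le (Real.exp_pos _).le
  refine ⟨G', hG', ?_, ?_⟩
  · have h1 := event_num d X Y B (by linarith) hXB hXY _ hNX
    have h2 : Real.exp (-X) ≤ Real.exp (-X') := Real.exp_le_exp.2 (by linarith)
    rw [← hX']
    linarith
  intro ξ hξ
  obtain ⟨q1, q2⟩ := hGp' ξ hξ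
  have hSM := hGp _ q1
  have hct : c ^ (17 / 8 : ℝ) ≤ σ ^ (53 / 25 : ℝ) := by
    rw [hcc]
    exact Real.rpow_le_rpow_of_exponent_ge hσ hσ1 (by norm_num)
  have ht3 : σ ^ (3 : ℝ) ≤ c ^ (17 / 8 : ℝ) := by
    rw [hcc]
    exact Real.rpow_le_rpow_of_exponent_ge hσ hσ1 (by norm_num)
  refine ⟨c ^ (17 / 8 : ℝ), 2 * (192 * (C1 * (17 / 8 * y))), Real.rpow_pos_of_pos hc0 _, hct,
    by positivity, ?_, ?_, ?_⟩
  · have : 2 * (192 * (C1 * (17 / 8 * y))) = 2 * (192 * (C1 * (17 / 8))) * y := by ring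
    rw [this]
    gcongr
  · refine hct.trans ?_
    have h1 : σ ^ (53 / 25 : ℝ) ≤ σ ^ (1 : ℝ) :=
      Real.rpow_le_rpow_of_exponent_ge hσ hσ1 (by norm_num)
    rw [Real.rpow_one] at h1
    linarith
  · rw [← hX']
    have hbox : 3 * Real.exp X' ≤ (⌊Real.exp X⌋₊ : ℕ) := by
      have h1 := Nat.lt_floor_add_one (Real.exp X)
      have h2 : Real.exp (4 * X') ≤ Real.exp X := Real.exp_le_exp.2 hXX
      have h3 : Real.exp (4 * X') = Real.exp X' * Real.exp (3 * X') := by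
        rw [← Real.exp_add]
        ring_nf
      have h4 : (4 : ℝ) ≤ Real.exp (3 * X') := by
        have := Real.add_one_le_exp (3 * X')
        linarith
      have h5 : (1 : ℝ) ≤ Real.exp X' := Real.one_le_exp (by linarith)
      nlinarith
    refine SM1_transfer c σ (Real.exp Y) _ _ (Real.exp X') (Real.exp X') _ ξ
      (Real.rpow_pos_of_pos hc0 _) (by positivity) (Real.exp_pos _) hSM
      (Real.exp_le_exp.2 (by linarith)) (fun x hx => ?_) ?_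
    · have h1 : |ξ x| ≤ B := q2 x (by linarith)
      rw [cl_eq hB0 h1, hcB]
      field_simp
    · have h1 : 4 * d ≤ c ^ (17 / 8 : ℝ) * Real.exp X' := by
        have h2 : σ ^ (3 : ℝ) * (4 * d * σ ^ (-(3 : ℝ))) ≤ σ ^ (3 : ℝ) * Real.exp X' := by
          have := hpos 3
          gcongr
        have h3 : σ ^ (3 : ℝ) * (4 * d * σ ^ (-(3 : ℝ))) = 4 * d := by
          have e6 : σ ^ (3 : ℝ) * σ ^ (-(3 : ℝ)) = 1 := by
            rw [hpw]
            norm_num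
          linear_combination (4 * (d : ℝ)) * e6
        rw [h3] at h2
        exact h2.trans (by gcongr)
      have h4 : (0 : ℝ) ≤ 4 * d := by positivity
      calc 16 * (d : ℝ) ^ 2 = (4 * d) ^ 2 := by ring
        _ ≤ (c ^ (17 / 8 : ℝ) * Real.exp X') ^ 2 := pow_le_pow_left₀ h4 h1 2
        _ = _ := by ring

end Pool.Agent.H189.U
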