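import Pool.Agent.H189.U.Res2
import Pool.Agent.H189.U.Dom
import Pool.Agent.H189.G.Scale
import Pool.Agent.H189.G.Base

/-! The profile of the resolvent for Gaussian variables. -/

set_option autoImplicit false
set_option linter.unusedSectionVars false
set_option linter.unusedVariables false

open scoped BigOperators ComplexConjugate Topology
open Set Filter MeasureTheory ProbabilityTheory

namespace Pool.Agent.H189.U

open Pool.Agent.H4R2.LO (Zd)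
open Pool.Agent.H189.G
open Pool.Agent.TH794.QE (Rs rs_exists)
open Pool.Agent.TH794.HK (ph Tg)
open Pool.Agent.R988.Tor (ev1 ev_extract)

/-- the comparison with the clipped variables: the event, the geometry -/
theorem geoG (d : ℕ) : ∀ᶠ σ : ℝ in 𝓝[>] 0, ∀ ξ : Zd d → ℝ,
    (∀ x : Zd d, ‖x‖ ≤ (⌊Real.exp (Xs σ)⌋₊ : ℕ) → |ξ x| ≤ Bs σ) →
    ∀ a : Zd d, ‖a‖ ≤ Real.exp (σ ^ (-(1 / 14000) : ℝ)) →
    ∀ x : Zd d, ‖x - a‖ ≤ 2 * Real.exp (σ ^ (-(1 / 14000) : ℝ)) →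
      2 * (d : ℝ) - σ * ξ x = 2 * d + cs σ * cl (Bs σ) (-ξ x) := by
  filter_upwards [scales d, ev1 4 (1 / 182000) (by norm_num)] with σ hS h4 ξ hξ a ha x hx
  have hσ := hS.pos
  have hpw : ∀ p q : ℝ, σ ^ p * σ ^ q = σ ^ (p + q) := fun p q => (Real.rpow_add hσ p q).symm
  have hpos : ∀ p : ℝ, 0 < σ ^ p := fun p => Real.rpow_pos_of_pos hσ p
  obtain ⟨X, hX⟩ : ∃ X, X = Xs σ := ⟨_, rfl⟩
  obtain ⟨X', hX'⟩ : ∃ X', X' = σ ^ (-(1 / 14000) : ℝ) := ⟨_, rfl⟩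
  rw [← hX] at hξ
  rw [← hX'] at ha hx
  have hX1 : 1 ≤ X' := by
    rw [hX']
    exact Real.one_le_rpow_of_pos_of_le_one_of_nonpos hσ hS.le1 (by norm_num)
  have hXX : 4 * X' ≤ X := by
    have e4 : X' = σ ^ (1 / 182000 : ℝ) * X := by
      rw [hX, hX']
      unfold Xs
      rw [hpw]
      norm_num
    have hX0 : 0 < X := by rw [hX]; exact hpos _
    rw [e4]
    nlinarith
  have hbox : 3 * Real.exp X' ≤ (⌊Real.exp X⌋₊ : ℕ) := by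
    have h1 := Nat.lt_floor_add_one (Real.exp X)
    have h2 : Real.exp (4 * X') ≤ Real.exp X := Real.exp_le_exp.2 hXX
    have h3 : Real.exp (4 * X') = Real.exp X' * Real.exp (3 * X') := by
      rw [← Real.exp_add]
      ring_nf
    have h4 : (4 : ℝ) ≤ Real.exp (3 * X') := by
      have := Real.add_one_le_exp (3 * X')
      linarith
    have h5 : (1 : ℝ) ≤ Real.exp X' := Real.one_le_exp (by linarith)
    nlinarith
  have h3 : ‖x‖ ≤ (⌊Real.exp X⌋₊ : ℕ) := by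
    calc ‖x‖ = ‖a + (x - a)‖ := by
          congr 1
          abel
      _ ≤ ‖a‖ + ‖x - a‖ := norm_add_le _ _
      _ ≤ 3 * Real.exp X' := by linarith
      _ ≤ _ := hbox
  have h5 := hξ x h3
  rw [cl_eq hS.Bpos (by rw [abs_neg]; exact h5), hS.cB]
  have := hS.Bpos.ne'
  field_simp
  ring

/-- the correction of the variance -/
theorem tg_corr {d : ℕ} (E η s2 s2' : ℝ) (p : Fin d → ℝ) (C θ : ℝ) (hη : 0 < η) (hs : 0 < s2)
    (hss : s2 ≤ s2') (hθ : s2' ≤ (1 + θ) * s2) (hθ0 : 0 ≤ θ) (h1 : 0 ≤ (γ1 d E).im)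
    (h0 : 0 < (γ0 d E).im) (hC : (γ0 d E).im ≤ C) :
    |Tg (γ0 d) (γ1 d) η s2 E p - Tg (γ0 d) (γ1 d) η s2' E p| ≤ C * θ := by
  unfold Tg
  obtain ⟨A, hA⟩ : ∃ A, A = (γ0 d E).im := ⟨_, rfl⟩
  obtain ⟨D, hD⟩ : ∃ D, D = (γ1 d E).im / (γ0 d E).im ^ 2 := ⟨_, rfl⟩
  obtain ⟨S, hS⟩ : ∃ S, S = ∑ i, p i ^ 2 := ⟨_, rfl⟩
  rw [← hD, ← hA, ← hS]
  rw [← hA] at h0 hC
  have hD0 : 0 ≤ D := by rw [hD]; positivity
  have hS0 : 0 ≤ S := by rw [hS]; exact Finset.sum_nonneg fun i _ => sq_nonneg _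
  have hs' : 0 < s2' := by linarith
  obtain ⟨x, hx⟩ : ∃ x, x = S / (η * s2) * D := ⟨_, rfl⟩
  obtain ⟨x', hx'⟩ : ∃ x', x' = S / (η * s2') * D := ⟨_, rfl⟩
  rw [← hx, ← hx']
  have hx0 : 0 ≤ x := by rw [hx]; positivity
  have hx0' : 0 ≤ x' := by rw [hx']; positivity
  have e1 : x - x' = x' * ((s2' - s2) / s2) := by
    rw [hx, hx']
    field_simp
  have e2 : (s2' - s2) / s2 ≤ θ := by
    rw [div_le_iff₀ hs]
    linarith
  have e3 : 0 ≤ (s2' - s2) / s2 := div_nonneg (by linarith) hs.le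
  have e4 : A / (1 + x) - A / (1 + x') = -(A * (x - x') / ((1 + x) * (1 + x'))) := by
    have : 1 + x ≠ 0 := by positivity
    have : 1 + x' ≠ 0 := by positivity
    field_simp
    ring
  have hxx : 0 ≤ x - x' := by rw [e1]; positivity
  rw [e4, abs_neg, abs_of_nonneg (by positivity)]
  have e5 : A * (x - x') / ((1 + x) * (1 + x')) ≤ A * θ := by
    rw [div_le_iff₀ (by positivity), e1, mul_assoc]
    apply mul_le_mul_of_nonneg_left _ h0.le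
    have e6 : x' * ((s2' - s2) / s2) ≤ x' * θ := by gcongr
    refine e6.trans ?_
    have e7 : x' ≤ (1 + x) * (1 + x') := by nlinarith [mul_nonneg hx0 hx0']
    calc x' * θ = θ * x' := mul_comm _ _
      _ ≤ θ * ((1 + x) * (1 + x')) := by gcongr
  exact e5.trans (by gcongr)

/-- **the profile of the resolvent for Gaussian variables** -/
theorem profG (d : ℕ) (hd : 3 ≤ d) (κ : ℝ) (hκ : 0 < κ) (hκ1 : κ ≤ 1) (K : ℝ) (hK : 0 ≤ K) :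
    ∃ σ0 : ℝ, 0 < σ0 ∧ σ0 ≤ 1 ∧ ∀ σ : ℝ, 0 < σ → σ ≤ σ0 →
      ∃ G : Set (Zd d → ℝ), MeasurableSet G ∧
        1 - Real.exp (-σ ^ (-(1 / 14000) : ℝ)) ≤
          (Measure.infinitePi fun _ : Zd d => gaussianReal 0 1).real G ∧
        ∀ ξ ∈ G, ∀ a : Zd d, ‖a‖ ≤ Real.exp (σ ^ (-(1 / 14000) : ℝ)) →
          ∀ e : ℝ, |2 * (d : ℝ) - e| ≤ 2 * d - κ → ∀ η : ℝ, σ ^ (2 + 1 / 41 : ℝ) ≤ η →
          η ≤ σ ^ (2 + 1 / 80 : ℝ) →
          ∀ u : Zd d → ℂ, Rs d (fun x => 2 * d - σ * ξ x) a e η u →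
          ∀ p : Fin d → ℝ, ∑ i, p i ^ 2 ≤ K * (η * σ ^ 2) →
            ‖((η : ℝ) : ℂ) * ∑' x, ph p (x - a) * ((‖u x‖ ^ 2 : ℝ) : ℂ) -
              ((Tg (γ0 d) (γ1 d) η (σ ^ 2) (2 * d - e) p : ℝ) : ℂ)‖ ≤ σ ^ (1 / 201 : ℝ) := by
  obtain ⟨m1, C0, hm1, hC0, hblk⟩ := bulk d hd κ hκ hκ1
  obtain ⟨c0, hc0, h4⟩ := baseG d hd κ hκ hκ1 (2 * K) (by positivity)
  obtain ⟨t0, ht0, ht01, hev⟩ := ev_extract (P := fun t : ℝ =>
    Scales d t ∧ 1 / c0 * t ^ (24999 / 25000 : ℝ) ≤ 1 ∧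
    2 * t ^ (24999 / 5000000 - 1 / 201 : ℝ) ≤ 1 ∧
    (72 * d ^ 2) * t ^ (-(8 : ℝ)) ≤ Real.exp (t ^ (-(1 / 14000) : ℝ)) ∧
    (64 * C0) * t ^ (-(1 : ℝ)) ≤ Real.exp (t ^ (-(1 / 13000) : ℝ)) ∧
    1 * t ^ (1 / 182000 : ℝ) ≤ 1 ∧
    ∀ ξ : Zd d → ℝ,
    (∀ x : Zd d, ‖x‖ ≤ (⌊Real.exp (Xs t)⌋₊ : ℕ) → |ξ x| ≤ Bs t) →
    ∀ a : Zd d, ‖a‖ ≤ Real.exp (t ^ (-(1 / 14000) : ℝ)) →
    ∀ x : Zd d, ‖x - a‖ ≤ 2 * Real.exp (t ^ (-(1 / 14000) : ℝ)) →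
      2 * (d : ℝ) - t * ξ x = 2 * d + cs t * cl (Bs t) (-ξ x)) (by
    filter_upwards [scales d, ev1 (1 / c0) (24999 / 25000) (by norm_num),
      ev1 2 (24999 / 5000000 - 1 / 201) (by norm_num),
      exp_dom (72 * d ^ 2) 8 (1 / 14000) (by norm_num),
      exp_dom (64 * C0) 1 (1 / 13000) (by norm_num), ev1 1 (1 / 182000) (by norm_num), geoG d]
      with t a1 a2 a3 a4 a5 a6 a7
    exact ⟨a1, a2, a3, a4, a5, a6, a7⟩)
  refine ⟨t0, ht0, ht01, ?_⟩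
  intro σ hσ hσ0
  obtain ⟨hS, a2, a3, a4, a5, a6, a7⟩ := hev σ hσ hσ0
  have hσ1 := hS.le1
  have hcc0 : cs σ ≤ c0 := by
    have : 1 / c0 * σ ^ (24999 / 25000 : ℝ) = cs σ / c0 := by
      unfold cs
      ring
    rw [this, div_le_one hc0] at a2
    exact a2
  obtain ⟨G, hG, hP, hGp⟩ := h4 (cs σ) hS.cpos hcc0 (clLaw (Bs σ)) inferInstance
    (clLaw_bd _) (Vs σ) (clLaw_mean _) rfl hS.V0
  have hpw : ∀ p q : ℝ, σ ^ p * σ ^ q = σ ^ (p + q) := fun p q =>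
    (Real.rpow_add hσ p q).symm
  have hpos : ∀ p : ℝ, 0 < σ ^ p := fun p => Real.rpow_pos_of_pos hσ p
  have hcc : ∀ p : ℝ, cs σ ^ p = σ ^ (24999 / 25000 * p) := fun p => by
    unfold cs
    rw [← Real.rpow_mul hσ.le]
  obtain ⟨X, hX⟩ : ∃ X, X = Xs σ := ⟨_, rfl⟩
  obtain ⟨X', hX'⟩ : ∃ X', X' = σ ^ (-(1 / 14000) : ℝ) := ⟨_, rfl⟩
  obtain ⟨Y, hY⟩ : ∃ Y, Y = cs σ ^ (-(1 / 101) : ℝ) := ⟨_, rfl⟩
  have hXs : X = σ ^ (-(1 / 13000) : ℝ) := by rw [hX]; rfl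
  have hX1 : 1 ≤ X := by rw [hX]; exact hS.X1
  have hX'0 : 0 < X' := by rw [hX']; exact hpos _
  have hXX : X' ≤ X := by
    rw [hX', hXs]
    exact Real.rpow_le_rpow_of_exponent_ge hσ hσ1 (by norm_num)
  have hXY : 2 * X ≤ Y := by
    have h1 := hS.XY
    rw [← hX, ← hY] at h1
    have h2 : (0 : ℝ) ≤ d := Nat.cast_nonneg d
    nlinarith
  rw [← hY] at hP hGp
  rw [← hX'] at a4 a7 ⊢
  rw [← hX] at a7
  rw [← hXs] at a5
  obtain ⟨G', hG', hP', hGp'⟩ := event (Bs σ) hS.Bpos ⌊Real.exp X⌋₊ G hG _ hP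
  have hNX : ((⌊Real.exp X⌋₊ : ℕ) : ℝ) ≤ Real.exp X := Nat.floor_le (Real.exp_pos _).le
  have hXB : (24 * d + 24) * X ≤ Bs σ ^ 2 := by rw [hX]; exact hS.XB
  refine ⟨G', hG', ?_, ?_⟩
  · have h1 := event_num d X Y (Bs σ) hX1 hXB hXY _ hNX
    have h2 : Real.exp (-X) ≤ Real.exp (-X') := Real.exp_le_exp.2 (by linarith)
    linarith
  intro ξ hξ a ha e he η hη1 hη2 u hu p hp
  obtain ⟨hξ1, hξ2⟩ := hGp' ξ hξ
  obtain ⟨ω, hω⟩ : ∃ ω : Zd d → ℝ, ω = fun x => cl (Bs σ) (-ξ x) := ⟨_, rfl⟩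
  rw [← hω] at hξ1
  obtain ⟨hωb, hL⟩ := hGp ω hξ1
  have hcpos := hS.cpos
  have hη0 : 0 < η := lt_of_lt_of_le (hpos _) hη1
  have hηle : η ≤ 1 := hη2.trans (Real.rpow_le_one hσ.le hσ1 (by norm_num))
  obtain ⟨u', hu'⟩ := rs_exists (fun x => 2 * (d : ℝ) + cs σ * ω x) (2 * d + cs σ * 1) (fun x => by
      refine (abs_add_le _ _).trans ?_
      rw [abs_of_nonneg (by positivity : (0 : ℝ) ≤ 2 * d), abs_mul, abs_of_pos hcpos]
      have := mul_le_mul_of_nonneg_left (hωb x) hcpos.le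
      linarith) a e η hη0
  obtain ⟨s2, hs2⟩ : ∃ s2, s2 = cs σ ^ 2 * Vs σ := ⟨_, rfl⟩
  have hs20 : 0 < s2 := by
    rw [hs2]
    have := hS.Vpos
    positivity
  have hs2u : s2 ≤ σ ^ 2 := by rw [hs2]; exact hS.s1
  have hs2l : σ ^ 2 / 2 ≤ s2 := by rw [hs2]; exact hS.s3
  have ha' : ‖a‖ ≤ Real.exp Y := ha.trans (Real.exp_le_exp.2 (by linarith))
  have hlaw := hL a ha' e he η (by
      rw [hcc]
      exact le_trans (Real.rpow_le_rpow_of_exponent_ge hσ hσ1 (by norm_num)) hη1) (by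
      rw [hcc]
      exact hη2.trans (Real.rpow_le_rpow_of_exponent_ge hσ hσ1 (by norm_num))) u' hu' p (by
      rw [← hs2]
      calc ∑ i, p i ^ 2 ≤ K * (η * σ ^ 2) := hp
        _ ≤ K * (η * (2 * s2)) := by
            gcongr
            linarith
        _ = _ := by ring)
  rw [← hs2] at hlaw
  -- the comparison
  have hag : ∀ x, ‖x - a‖ ≤ 2 * Real.exp X' → (fun x => 2 * (d : ℝ) - σ * ξ x) x =
      (fun x => 2 * (d : ℝ) + cs σ * ω x) x := by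
    intro x hx
    rw [hω]
    exact a7 ξ hξ2 a ha x hx
  have hR1 : 1 ≤ Real.exp X' := Real.one_le_exp hX'0.le
  obtain ⟨q1, q2⟩ := cmpU (by omega : 1 ≤ d) hu hu' hη0 hηle (Real.exp X') hR1 hag
  have hph : ∀ x : Zd d, ‖ph p (x - a)‖ = 1 := fun x => Pool.Agent.TH794.HK.ph_norm _ _
  have hsu : Summable fun x => ph p (x - a) * ((‖u x‖ ^ 2 : ℝ) : ℂ) := by
    refine Summable.of_norm_bounded (g := fun x => ‖u x‖ ^ 2) hu.sq fun x => ?_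
    rw [norm_mul, hph, one_mul, Complex.norm_real, Real.norm_of_nonneg (by positivity)]
  have hsu' : Summable fun x => ph p (x - a) * ((‖u' x‖ ^ 2 : ℝ) : ℂ) := by
    refine Summable.of_norm_bounded (g := fun x => ‖u' x‖ ^ 2) hu'.sq fun x => ?_
    rw [norm_mul, hph, one_mul, Complex.norm_real, Real.norm_of_nonneg (by positivity)]
  have hdiff : ‖∑' x, ph p (x - a) * ((‖u x‖ ^ 2 : ℝ) : ℂ) -
      ∑' x, ph p (x - a) * ((‖u' x‖ ^ 2 : ℝ) : ℂ)‖ ≤ 18 * d ^ 2 * (η⁻¹) ^ 4 / Real.exp X' := by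
    rw [← hsu.tsum_sub hsu']
    refine le_trans (tsum_of_norm_bounded q1.hasSum fun x => ?_) q2
    rw [← mul_sub, norm_mul, hph, one_mul, ← Complex.ofReal_sub, Complex.norm_real,
      Real.norm_eq_abs]
  obtain ⟨g1, g2, g3⟩ := hblk _ he
  have hTc := tg_corr (2 * d - e) η s2 (σ ^ 2) p C0 (16 * Real.exp (-X)) hη0 hs20 hs2u (by
      have h1 := hS.s2
      rw [← hs2] at h1
      have h2 : Real.exp (-(Bs σ ^ 2 / 8)) ≤ Real.exp (-X) := by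
        apply Real.exp_le_exp.2
        have h3 : (0 : ℝ) ≤ d := Nat.cast_nonneg d
        nlinarith
      have h3 : σ ^ 2 * (8 * Real.exp (-(Bs σ ^ 2 / 8))) ≤ 16 * Real.exp (-X) * s2 := by
        calc σ ^ 2 * (8 * Real.exp (-(Bs σ ^ 2 / 8))) ≤ (2 * s2) * (8 * Real.exp (-X)) := by
              gcongr
              linarith
          _ = _ := by ring
      linarith) (by positivity) (by linarith) (by linarith) g3
  obtain ⟨A, hA⟩ : ∃ A, A = ∑' x, ph p (x - a) * ((‖u x‖ ^ 2 : ℝ) : ℂ) := ⟨_, rfl⟩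
  obtain ⟨A', hA'⟩ : ∃ A', A' = ∑' x, ph p (x - a) * ((‖u' x‖ ^ 2 : ℝ) : ℂ) := ⟨_, rfl⟩
  obtain ⟨T, hT⟩ : ∃ T, T = Tg (γ0 d) (γ1 d) η s2 (2 * d - e) p := ⟨_, rfl⟩
  obtain ⟨T', hT'⟩ : ∃ T', T' = Tg (γ0 d) (γ1 d) η (σ ^ 2) (2 * d - e) p := ⟨_, rfl⟩
  rw [← hA, ← hA'] at hdiff
  rw [← hA', ← hT] at hlaw
  rw [← hT, ← hT'] at hTc
  rw [← hA, ← hT']
  have e1 : (η : ℂ) * A - (T' : ℂ) = ((η : ℂ) * A' - (T : ℂ)) + (η : ℂ) * (A - A') +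
      ((T - T' : ℝ) : ℂ) := by
    push_cast
    ring
  rw [e1]
  refine (norm_add₃_le).trans ?_
  rw [norm_mul, Complex.norm_real, Complex.norm_real, Real.norm_eq_abs, Real.norm_eq_abs,
    abs_of_pos hη0]
  have b1 : cs σ ^ (1 / 200 : ℝ) ≤ 1 / 2 * σ ^ (1 / 201 : ℝ) := by
    have e2 : cs σ ^ (1 / 200 : ℝ) = σ ^ (24999 / 5000000 - 1 / 201 : ℝ) * σ ^ (1 / 201 : ℝ) := by
      rw [hcc, hpw]
      norm_num
    rw [e2]
    have := hpos (1 / 201)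
    nlinarith
  have hs1 : σ ≤ σ ^ (1 / 201 : ℝ) := by
    nth_rewrite 1 [← Real.rpow_one σ]
    exact Real.rpow_le_rpow_of_exponent_ge hσ hσ1 (by norm_num)
  have b2 : η * ‖A - A'‖ ≤ 1 / 4 * σ ^ (1 / 201 : ℝ) := by
    have h1 : (η⁻¹) ≤ σ ^ (-(2 + 1 / 41) : ℝ) := by
      rw [Real.rpow_neg hσ.le]
      exact inv_anti₀ (hpos _) hη1
    have h2 : η * ‖A - A'‖ ≤ 18 * d ^ 2 * (η⁻¹) ^ 3 / Real.exp X' := by
      calc η * ‖A - A'‖ ≤ η * (18 * d ^ 2 * (η⁻¹) ^ 4 / Real.exp X') := by gcongr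
        _ = _ := by field_simp
    have h3 : (η⁻¹) ^ 3 ≤ σ * σ ^ (-(8 : ℝ)) := by
      calc (η⁻¹) ^ 3 ≤ (σ ^ (-(2 + 1 / 41) : ℝ)) ^ 3 := by gcongr
        _ = σ ^ (-(249 / 41) : ℝ) := by
            rw [← Real.rpow_natCast, ← Real.rpow_mul hσ.le]
            norm_num
        _ ≤ σ ^ (-(7 : ℝ)) := Real.rpow_le_rpow_of_exponent_ge hσ hσ1 (by norm_num)
        _ = σ * σ ^ (-(8 : ℝ)) := by
            nth_rewrite 2 [← Real.rpow_one σ]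
            rw [hpw]
            norm_num
    have h4 : 18 * d ^ 2 * (η⁻¹) ^ 3 / Real.exp X' ≤ 1 / 4 * σ := by
      rw [div_le_iff₀ (Real.exp_pos _)]
      calc 18 * (d : ℝ) ^ 2 * (η⁻¹) ^ 3 ≤ 18 * d ^ 2 * (σ * σ ^ (-(8 : ℝ))) := by gcongr
        _ = 1 / 4 * σ * (72 * d ^ 2 * σ ^ (-(8 : ℝ))) := by ring
        _ ≤ 1 / 4 * σ * Real.exp X' := by gcongr
    linarith
  have b3 : |T - T'| ≤ 1 / 4 * σ ^ (1 / 201 : ℝ) := by
    have h1 : C0 * (16 * Real.exp (-X)) ≤ 1 / 4 * σ := by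
      rw [Real.exp_neg, ← mul_assoc, ← div_eq_mul_inv, div_le_iff₀ (Real.exp_pos _)]
      calc C0 * 16 = 1 / 4 * σ * (64 * C0 * σ ^ (-(1 : ℝ))) := by
            rw [Real.rpow_neg hσ.le, Real.rpow_one]
            field_simp
            ring
        _ ≤ 1 / 4 * σ * Real.exp X := by gcongr
    linarith
  linarith

end Pool.Agent.H189.U
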