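import Pool.Agent.H189.U.Cut
import Pool.Agent.TH794.QE.FinA

/-! The resolvent for potentials that need not be bounded. -/

set_option autoImplicit false
set_option linter.unusedSectionVars false
set_option linter.unusedVariables false

open scoped BigOperators ComplexConjugate Topology
open Set Filter

namespace Pool.Agent.H189.U

open Pool.Agent.W788.LD.Spec (S symm summ_mul summ_shift shiftsum)
open Pool.Agent.H4R2.LO (Zd)
open Pool.Agent.TH794.QE (Rs rs_exists)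

variable {d : ℕ}

/-- the energy estimate; no bound on the potential -/
theorem energy (V : Zd d → ℝ) (e η : ℝ) (hη : 0 < η) (w f : Zd d → ℂ)
    (hw : Summable fun x => ‖w x‖ ^ 2) (hf : Summable fun x => ‖f x‖ ^ 2)
    (h : ∀ x, -S w x + (V x : ℂ) * w x - ((e : ℂ) + (η : ℂ) * Complex.I) * w x = f x) :
    η ^ 2 * ∑' x, ‖w x‖ ^ 2 ≤ ∑' x, ‖f x‖ ^ 2 := by
  obtain ⟨s1, s2, e1⟩ := symm w w hw hw
  have h0 : (∑' x, conj (w x) * S w x).im = 0 := by
    have h2 : ∑' x, conj (S w x) * w x = conj (∑' x, conj (w x) * S w x) := by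
      rw [Complex.conj_tsum]
      exact tsum_congr fun x => by
        rw [map_mul, Complex.conj_conj, mul_comm]
    rw [h2] at e1
    exact Complex.conj_eq_iff_im.1 e1.symm
  have h1 : ∀ z : ℂ, conj z * z = ((‖z‖ ^ 2 : ℝ) : ℂ) := by
    intro z
    rw [mul_comm, Complex.mul_conj, Complex.normSq_eq_norm_sq]
  have h3 : ∀ x, η * ‖w x‖ ^ 2 = -(conj (w x) * f x).im - (conj (w x) * S w x).im := by
    intro x
    have h4 : conj (w x) * f x = -(conj (w x) * S w x) +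
        (((V x - e) * ‖w x‖ ^ 2 : ℝ) : ℂ) - ((η * ‖w x‖ ^ 2 : ℝ) : ℂ) * Complex.I := by
      rw [← h x]
      have h5 := h1 (w x)
      push_cast at h5 ⊢
      linear_combination ((V x : ℂ) - (e + η * Complex.I)) * h5
    rw [h4, Complex.sub_im, Complex.add_im, Complex.neg_im, Complex.ofReal_im,
      Complex.im_ofReal_mul, Complex.I_im]
    ring
  have sfw := summ_mul w f hw hf
  have h5 : η * ∑' x, ‖w x‖ ^ 2 = -(∑' x, conj (w x) * f x).im := by
    rw [← tsum_mul_left]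
    simp only [h3]
    have a1 : Summable fun x => (conj (w x) * f x).im := (Complex.hasSum_im sfw.hasSum).summable
    have a2 : Summable fun x => (conj (w x) * S w x).im := (Complex.hasSum_im s1.hasSum).summable
    rw [a1.neg.tsum_sub a2, tsum_neg, (Complex.hasSum_im sfw.hasSum).tsum_eq,
      (Complex.hasSum_im s1.hasSum).tsum_eq, h0, sub_zero]
  have h6 : |(∑' x, conj (w x) * f x).im| ≤
      η / 2 * ∑' x, ‖w x‖ ^ 2 + 1 / (2 * η) * ∑' x, ‖f x‖ ^ 2 := by
    have b1 : ∀ x, ‖conj (w x) * f x‖ ≤ η / 2 * ‖w x‖ ^ 2 + 1 / (2 * η) * ‖f x‖ ^ 2 := by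
      intro x
      rw [norm_mul, RCLike.norm_conj]
      have e2 : η / 2 * ‖w x‖ ^ 2 + 1 / (2 * η) * ‖f x‖ ^ 2 - ‖w x‖ * ‖f x‖ =
          1 / (2 * η) * (η * ‖w x‖ - ‖f x‖) ^ 2 := by
        field_simp
        ring
      have e3 : 0 ≤ 1 / (2 * η) * (η * ‖w x‖ - ‖f x‖) ^ 2 := by positivity
      linarith
    have b2 : Summable fun x => η / 2 * ‖w x‖ ^ 2 + 1 / (2 * η) * ‖f x‖ ^ 2 :=
      (hw.mul_left _).add (hf.mul_left _)
    refine (Complex.abs_im_le_norm _).trans ?_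
    refine (tsum_of_norm_bounded b2.hasSum b1).trans (le_of_eq ?_)
    rw [(hw.mul_left _).tsum_add (hf.mul_left _), tsum_mul_left, tsum_mul_left]
  have h7 : η * ∑' x, ‖w x‖ ^ 2 ≤ η / 2 * ∑' x, ‖w x‖ ^ 2 + 1 / (2 * η) * ∑' x, ‖f x‖ ^ 2 := by
    rw [h5]
    refine le_trans ?_ (h6)
    exact neg_le_abs _
  have h8 : η / 2 * ∑' x, ‖w x‖ ^ 2 ≤ 1 / (2 * η) * ∑' x, ‖f x‖ ^ 2 := by linarith
  have h9 := mul_le_mul_of_nonneg_left h8 (by positivity : 0 ≤ 2 * η)
  calc η ^ 2 * ∑' x, ‖w x‖ ^ 2 = 2 * η * (η / 2 * ∑' x, ‖w x‖ ^ 2) := by ring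
    _ ≤ 2 * η * (1 / (2 * η) * ∑' x, ‖f x‖ ^ 2) := h9
    _ = _ := by field_simp

/-- multiplication of a solution by a real function -/
theorem mul_eq (V : Zd d → ℝ) (z : ℂ) (φ : Zd d → ℝ) (u f : Zd d → ℂ)
    (h : ∀ x, -S u x + (V x : ℂ) * u x - z * u x = f x) (x : Zd d) :
    -S (fun y => (φ y : ℂ) * u y) x + (V x : ℂ) * ((φ x : ℂ) * u x) - z * ((φ x : ℂ) * u x) =
      (φ x : ℂ) * f x - cm φ u x := by
  have e1 := cm_eq (𝕜 := ℂ) φ u x
  unfold S
  rw [← h x]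
  unfold S
  simp only [RCLike.ofReal_eq_complex_ofReal] at e1
  rw [e1]
  ring

theorem delta_sq (a : Zd d) : (Summable fun x : Zd d => ‖(if x = a then 1 else 0 : ℂ)‖ ^ 2) ∧
    ∑' x : Zd d, ‖(if x = a then 1 else 0 : ℂ)‖ ^ 2 = 1 := by
  have h1 : ∀ x : Zd d, ‖(if x = a then 1 else 0 : ℂ)‖ ^ 2 = if x = a then 1 else 0 := by
    intro x
    split_ifs <;> simp
  simp only [h1]
  constructor
  · exact summable_of_ne_finset_zero (s := {a}) fun x hx => by
      rw [if_neg]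
      simpa using hx
  · exact tsum_ite_eq a 1

theorem rsU_norm {V : Zd d → ℝ} {a : Zd d} {e η : ℝ} {u : Zd d → ℂ} (h : Rs d V a e η u)
    (hη : 0 < η) : ∑' x, ‖u x‖ ^ 2 ≤ (η⁻¹) ^ 2 := by
  obtain ⟨d1, d2⟩ := delta_sq a
  have h1 := energy V e η hη u _ h.sq d1 h.eq
  rw [d2] at h1
  rw [inv_pow, ← one_div, le_div_iff₀ (by positivity)]
  linarith

/-- the truncated distance -/
noncomputable def td (a : Zd d) (N : ℝ) (x : Zd d) : ℝ := min ‖x - a‖ N

theorem td_lip (a : Zd d) (N : ℝ) (x : Zd d) (i : Fin d) :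
    |td a N (x + Pi.single i 1) - td a N x| ≤ 1 := by
  unfold td
  have h1 : |‖x + Pi.single i 1 - a‖ - ‖x - a‖| ≤ 1 := by
    refine (abs_norm_sub_norm_le _ _).trans ?_
    have e2 : x + Pi.single i 1 - a - (x - a) = (Pi.single i 1 : Zd d) := by abel
    rw [e2]
    exact single_norm i
  have h2 := abs_le.1 h1
  rw [abs_le]
  constructor
  · rcases le_total ‖x + Pi.single i 1 - a‖ N with h3 | h3 <;> rcases le_total ‖x - a‖ N with h4 | h4
    · rw [min_eq_left h3, min_eq_left h4]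
      linarith
    · rw [min_eq_left h3, min_eq_right h4]
      linarith
    · rw [min_eq_right h3, min_eq_left h4]
      linarith
    · rw [min_eq_right h3, min_eq_right h4]
      linarith
  · rcases le_total ‖x + Pi.single i 1 - a‖ N with h3 | h3 <;> rcases le_total ‖x - a‖ N with h4 | h4
    · rw [min_eq_left h3, min_eq_left h4]
      linarith
    · rw [min_eq_left h3, min_eq_right h4]
      linarith
    · rw [min_eq_right h3, min_eq_left h4]
      linarith
    · rw [min_eq_right h3, min_eq_right h4]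
      linarith

theorem rsU_wt {V : Zd d → ℝ} {a : Zd d} {e η : ℝ} {u : Zd d → ℂ} (h : Rs d V a e η u)
    (hη : 0 < η) : (Summable fun x => ‖x - a‖ ^ 2 * ‖u x‖ ^ 2) ∧
      ∑' x, ‖x - a‖ ^ 2 * ‖u x‖ ^ 2 ≤ 4 * d ^ 2 * (η⁻¹) ^ 4 := by
  have hN : ∀ N : ℝ, 0 ≤ N → (Summable fun x => td a N x ^ 2 * ‖u x‖ ^ 2) ∧
      ∑' x, td a N x ^ 2 * ‖u x‖ ^ 2 ≤ 4 * d ^ 2 * (η⁻¹) ^ 4 := by
    intro N hN
    have t0 : ∀ x, 0 ≤ td a N x := fun x => le_min (norm_nonneg _) hN
    have t1 : ∀ x, td a N x ≤ N := fun x => min_le_right _ _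
    have hs : Summable fun x => td a N x ^ 2 * ‖u x‖ ^ 2 := by
      refine Summable.of_nonneg_of_le (fun x => by positivity) (fun x => ?_) (h.sq.mul_left (N ^ 2))
      have := t0 x
      have := t1 x
      gcongr
    refine ⟨hs, ?_⟩
    have hn : ∀ x, ‖((td a N x : ℝ) : ℂ) * u x‖ ^ 2 = td a N x ^ 2 * ‖u x‖ ^ 2 := fun x => by
      rw [norm_mul, mul_pow, Complex.norm_real, Real.norm_eq_abs, sq_abs]
    obtain ⟨c1, c2⟩ := cm_bound (𝕜 := ℂ) (td a N) 1 zero_le_one (td_lip a N) u h.sq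
    have h1 := energy V e η hη (fun x => ((td a N x : ℝ) : ℂ) * u x) (fun x => -cm (td a N) u x)
      (by
        simp only [hn]
        exact hs) (by
        simp only [norm_neg]
        exact c1) (fun x => by
        rw [mul_eq V _ (td a N) u _ h.eq x]
        by_cases hx : x = a
        · rw [hx]
          have : td a N a = 0 := by
            unfold td
            rw [sub_self, norm_zero]
            exact min_eq_left hN
          rw [this]
          simp
        · rw [if_neg hx]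
          simp)
    simp only [hn, norm_neg] at h1
    have h2 := rsU_norm h hη
    have h3 : η ^ 2 * ∑' x, td a N x ^ 2 * ‖u x‖ ^ 2 ≤ (2 * d * 1) ^ 2 * (η⁻¹) ^ 2 :=
      h1.trans (c2.trans (by gcongr))
    have h4 := mul_le_mul_of_nonneg_left h3 (by positivity : 0 ≤ (η⁻¹) ^ 2)
    have e1 : (η⁻¹) ^ 2 * (η ^ 2 * ∑' x, td a N x ^ 2 * ‖u x‖ ^ 2) =
        ∑' x, td a N x ^ 2 * ‖u x‖ ^ 2 := by
      rw [← mul_assoc, inv_pow, inv_mul_cancel₀ (by positivity), one_mul]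
    rw [e1] at h4
    refine h4.trans (le_of_eq ?_)
    ring
  have hfin : ∀ s : Finset (Zd d), ∑ x ∈ s, ‖x - a‖ ^ 2 * ‖u x‖ ^ 2 ≤ 4 * d ^ 2 * (η⁻¹) ^ 4 := by
    intro s
    obtain ⟨N, hN0, hNs⟩ : ∃ N : ℝ, 0 ≤ N ∧ ∀ x ∈ s, ‖x - a‖ ≤ N := by
      refine ⟨∑ x ∈ s, ‖x - a‖, Finset.sum_nonneg fun x _ => norm_nonneg _, fun x hx => ?_⟩
      exact Finset.single_le_sum (f := fun x => ‖x - a‖) (fun x _ => norm_nonneg _) hx
    obtain ⟨q1, q2⟩ := hN N hN0
    refine le_trans ?_ q2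
    refine le_trans (Finset.sum_le_sum fun x hx => ?_) (q1.sum_le_tsum s fun x _ => by positivity)
    unfold td
    rw [min_eq_left (hNs x hx)]
  refine ⟨summable_of_sum_le (fun x => by positivity) hfin, ?_⟩
  exact Real.tsum_le_of_sum_le (fun x => by positivity) hfin

end Pool.Agent.H189.U
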