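import Pool.Agent.H189.U.Cut
import Pool.Agent.H189.G.Event
import Pool.Agent.W788.BK.Flat1

/-! Local smoothing for Gaussian variables. -/

set_option autoImplicit false
set_option linter.unusedSectionVars false
set_option linter.unusedVariables false

open scoped BigOperators ComplexConjugate
open Set MeasureTheory ProbabilityTheory

namespace Pool.Agent.H189.U

open Pool.Agent.W788.BK (SM1)
open Pool.Agent.H4R2.LO (Zd)
open Pool.Agent.H189.G

variable {d : ℕ}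

/-- local smoothing depends on the potential near the site only -/
theorem SM1_transfer (σ' σ ρ t g R ρ' : ℝ) (ξ' ξ : Zd d → ℝ) (ht : 0 < t) (hg : 0 ≤ g)
    (hR : 0 < R) (h : SM1 d σ' ρ t g ξ') (hρ : ρ' ≤ ρ)
    (hag : ∀ x : Zd d, ‖x‖ ≤ ρ' + 2 * R → σ' * ξ' x = σ * ξ x)
    (hR2 : 16 * d ^ 2 ≤ t ^ 2 * R ^ 2) : SM1 d σ ρ' t (2 * g) ξ := by
  intro E u f hu hf heq a ha
  obtain ⟨c1, c2⟩ := cm_bound (𝕜 := ℝ) (co a R) (1 / R) (by positivity) (co_lip a R hR) u (by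
    simp only [Real.norm_eq_abs, sq_abs]
    exact hu)
  simp only [Real.norm_eq_abs, sq_abs] at c1 c2
  have hco : ∀ x, co a R x ^ 2 ≤ 1 := fun x =>
    pow_le_one₀ (co_nonneg a R x) (co_le_one a R x)
  have hu1 : ∀ x, (co a R x * u x) ^ 2 ≤ u x ^ 2 := fun x => by
    rw [mul_pow]
    have := hco x
    nlinarith [sq_nonneg (u x)]
  have hs1 : Summable fun x => (co a R x * u x) ^ 2 :=
    Summable.of_nonneg_of_le (fun x => sq_nonneg _) hu1 hu
  have hf1 : ∀ x, (co a R x * f x + cm (co a R) u x) ^ 2 ≤ 2 * f x ^ 2 +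
      2 * cm (co a R) u x ^ 2 := fun x => by
    have h1 : (co a R x * f x) ^ 2 ≤ f x ^ 2 := by
      rw [mul_pow]
      have := hco x
      nlinarith [sq_nonneg (f x)]
    nlinarith [sq_nonneg (co a R x * f x - cm (co a R) u x)]
  have hs2 : Summable fun x => (co a R x * f x + cm (co a R) u x) ^ 2 :=
    Summable.of_nonneg_of_le (fun x => sq_nonneg _) hf1 ((hf.mul_left 2).add (c1.mul_left 2))
  have h2 := h E (fun x => co a R x * u x) (fun x => co a R x * f x + cm (co a R) u x) hs1 hs2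
    (fun x => by
      have e1 := cm_eq (𝕜 := ℝ) (co a R) u x
      simp only [RCLike.ofReal_real_eq_id, id_eq] at e1
      rw [e1]
      rcases le_or_gt (2 * R) ‖x - a‖ with hx | hx
      · rw [co_zero a R hR x hx]
        ring
      · have h3 : ‖x‖ ≤ ρ' + 2 * R := by
          calc ‖x‖ = ‖a + (x - a)‖ := by
                congr 1
                abel
            _ ≤ ‖a‖ + ‖x - a‖ := norm_add_le _ _
            _ ≤ ρ' + 2 * R := by linarith
        have h4 := hag x h3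
        have h5 := heq x
        have e2 : σ' * ξ' x * (co a R x * u x) = σ * ξ x * (co a R x * u x) := by rw [h4]
        rw [e2]
        linear_combination (co a R x) * h5) a (ha.trans hρ)
  rw [co_one a R hR a (by simp [hR.le]), one_mul] at h2
  have h6 : ∑' x, (co a R x * u x) ^ 2 ≤ ∑' x, u x ^ 2 := hs1.tsum_le_tsum hu1 hu
  have h7 : ∑' x, (co a R x * f x + cm (co a R) u x) ^ 2 ≤
      2 * ∑' x, f x ^ 2 + 2 * ((2 * d * (1 / R)) ^ 2 * ∑' x, u x ^ 2) := by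
    refine (hs2.tsum_le_tsum hf1 ((hf.mul_left 2).add (c1.mul_left 2))).trans ?_
    rw [(hf.mul_left 2).tsum_add (c1.mul_left 2), tsum_mul_left, tsum_mul_left]
    linarith
  have hSu : 0 ≤ ∑' x, u x ^ 2 := tsum_nonneg fun x => sq_nonneg _
  have h8 : 2 * t⁻¹ * (2 * ((2 * d * (1 / R)) ^ 2)) ≤ t := by
    have e1 : 2 * t⁻¹ * (2 * ((2 * (d : ℝ) * (1 / R)) ^ 2)) = (16 * d ^ 2) / (t * R ^ 2) := by
      field_simp
      ring
    rw [e1, div_le_iff₀ (by positivity)]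
    calc 16 * (d : ℝ) ^ 2 ≤ t ^ 2 * R ^ 2 := hR2
      _ = _ := by ring
  refine h2.trans ?_
  have h9 : 5 * t * ∑' x, (co a R x * u x) ^ 2 +
      2 * t⁻¹ * ∑' x, (co a R x * f x + cm (co a R) u x) ^ 2 ≤
      2 * (5 * t * ∑' x, u x ^ 2 + 2 * t⁻¹ * ∑' x, f x ^ 2) := by
    calc 5 * t * ∑' x, (co a R x * u x) ^ 2 +
      2 * t⁻¹ * ∑' x, (co a R x * f x + cm (co a R) u x) ^ 2 ≤ 5 * t * ∑' x, u x ^ 2 +
        2 * t⁻¹ * (2 * ∑' x, f x ^ 2 + 2 * ((2 * d * (1 / R)) ^ 2 * ∑' x, u x ^ 2)) := by gcongr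
      _ = 5 * t * ∑' x, u x ^ 2 + (2 * t⁻¹ * (2 * ((2 * d * (1 / R)) ^ 2))) * ∑' x, u x ^ 2 +
        2 * (2 * t⁻¹ * ∑' x, f x ^ 2) := by ring
      _ ≤ 5 * t * ∑' x, u x ^ 2 + t * ∑' x, u x ^ 2 + 2 * (2 * t⁻¹ * ∑' x, f x ^ 2) := by gcongr
      _ ≤ _ := by nlinarith [mul_nonneg ht.le hSu]
  calc g * _ ≤ g * (2 * (5 * t * ∑' x, u x ^ 2 + 2 * t⁻¹ * ∑' x, f x ^ 2)) := by gcongr
    _ = _ := by ring

/-- the clipped law again -/
theorem clLaw_eq (B : ℝ) : clLaw B = (gaussianReal 0 1).map (cl B) := by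
  unfold clLaw
  have h2 : (gaussianReal 0 1).map (fun s => -s) = gaussianReal 0 1 := by
    rw [gaussianReal_map_neg, neg_zero]
  conv_rhs => rw [← h2]
  rw [Measure.map_map (cl_meas B) measurable_neg]
  rfl

/-- the reflected event -/
theorem event2 (B : ℝ) (hB : 0 < B) (N : ℕ) (G : Set ((Fin d → ℤ) → ℝ))
    (hG : MeasurableSet G) (p : ℝ)
    (hP : 1 - p ≤ (Measure.infinitePi fun _ : Fin d → ℤ => clLaw B).real G) :
    ∃ G' : Set ((Fin d → ℤ) → ℝ), MeasurableSet G' ∧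
      1 - (p + (2 * (N : ℝ) + 1) ^ d * (2 * Real.exp (-(B ^ 2 / 8)))) ≤
        (Measure.infinitePi fun _ : Fin d → ℤ => gaussianReal 0 1).real G' ∧
      ∀ ξ ∈ G', (fun x => cl B (ξ x)) ∈ G ∧ ∀ x : Fin d → ℤ, ‖x‖ ≤ N → |ξ x| ≤ B := by
  obtain ⟨G1, h1, h2, h3⟩ := event B hB N G hG p hP
  have hm : Measurable fun (ξ : (Fin d → ℤ) → ℝ) x => -ξ x :=
    measurable_pi_lambda _ fun x => (measurable_pi_apply x).neg
  have hlaw : (Measure.infinitePi fun _ : Fin d → ℤ => gaussianReal 0 1).map (fun ξ x => -ξ x) =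
      Measure.infinitePi fun _ : Fin d → ℤ => gaussianReal 0 1 := by
    have h1 := Measure.infinitePi_map_pi (μ := fun _ : Fin d → ℤ => gaussianReal 0 1)
      (f := fun _ (s : ℝ) => -s) (fun _ => measurable_neg)
    simp only [gaussianReal_map_neg, neg_zero] at h1
    exact h1
  refine ⟨(fun ξ x => -ξ x) ⁻¹' G1, hm h1, ?_, fun ξ hξ => ?_⟩
  · rw [← map_measureReal_apply hm h1, hlaw]
    exact h2
  · obtain ⟨h4, h5⟩ := h3 _ hξ
    simp only [neg_neg, abs_neg] at h4 h5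
    exact ⟨h4, h5⟩

end Pool.Agent.H189.U
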